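import Mathlib

set_option autoImplicit false

open Complex Metric Set Filter Topology

namespace Pool.Agent.Helper694.Ang

/-- Iteration converging to the Böttcher-type function `G` with `G(s)^2 = G(s^2) - (3/16) s^2`. -/
noncomputable def Gn : ℕ → ℂ → ℂ
  | 0 => fun _ => 1
  | n + 1 => fun s => (Gn n (s ^ 2) - (3 / 16) * s ^ 2) ^ (2⁻¹ : ℂ)

lemma sqrt_re {w : ℂ} (h : ‖w - 1‖ ≤ 7 / 16) : 3 / 4 ≤ (w ^ (2⁻¹ : ℂ)).re := by
  rw [Complex.cpow_inv_two_re]
  have h1 : 9 / 16 ≤ w.re := by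
    have := Complex.abs_re_le_norm (w - 1)
    have h2 := abs_le.1 (this.trans h)
    simp at h2
    linarith [h2.1]
  have h3 : w.re ≤ ‖w‖ := Complex.re_le_norm w
  apply Real.le_sqrt_of_sq_le
  linarith

lemma sqrt_sq (w : ℂ) : (w ^ (2⁻¹ : ℂ)) ^ 2 = w := by
  have := Complex.cpow_nat_inv_pow w (n := 2) (by norm_num)
  simpa using this

lemma sqrt_near {w : ℂ} (h : ‖w - 1‖ ≤ 7 / 16) : ‖w ^ (2⁻¹ : ℂ) - 1‖ ≤ 1 / 4 := by
  have h1 := sqrt_re h
  set r := w ^ (2⁻¹ : ℂ) with hr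
  have h2 : (r - 1) * (r + 1) = w - 1 := by
    have := sqrt_sq w
    rw [← hr] at this
    linear_combination this
  have h3 : 7 / 4 ≤ ‖r + 1‖ := by
    have := Complex.re_le_norm (r + 1)
    simp at this
    linarith
  have h4 : ‖r - 1‖ * ‖r + 1‖ = ‖w - 1‖ := by rw [← norm_mul, h2]
  have h5 : 0 ≤ ‖r - 1‖ := norm_nonneg _
  nlinarith

lemma sqrt_lip {w v : ℂ} (h : ‖w - 1‖ ≤ 7 / 16) (h' : ‖v - 1‖ ≤ 7 / 16) :
    ‖w ^ (2⁻¹ : ℂ) - v ^ (2⁻¹ : ℂ)‖ ≤ 2 / 3 * ‖w - v‖ := by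
  have h1 := sqrt_re h
  have h1' := sqrt_re h'
  set r := w ^ (2⁻¹ : ℂ) with hr
  set q := v ^ (2⁻¹ : ℂ) with hq
  have h2 : (r - q) * (r + q) = w - v := by
    have e1 := sqrt_sq w
    have e2 := sqrt_sq v
    rw [← hr] at e1
    rw [← hq] at e2
    linear_combination e1 - e2
  have h3 : 3 / 2 ≤ ‖r + q‖ := by
    have := Complex.re_le_norm (r + q)
    simp at this
    linarith
  have h4 : ‖r - q‖ * ‖r + q‖ = ‖w - v‖ := by rw [← norm_mul, h2]
  have h5 : 0 ≤ ‖r - q‖ := norm_nonneg _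
  nlinarith

lemma arg_near {g s : ℂ} (hg : ‖g - 1‖ ≤ 1 / 4) (hs : ‖s‖ ≤ 1) :
    ‖g - (3 / 16) * s ^ 2 - 1‖ ≤ 7 / 16 := by
  have h1 : g - (3 / 16) * s ^ 2 - 1 = (g - 1) - (3 / 16) * s ^ 2 := by ring
  rw [h1]
  have h2 : ‖(3 / 16 : ℂ) * s ^ 2‖ ≤ 3 / 16 := by
    rw [norm_mul, norm_pow]
    have : ‖(3 / 16 : ℂ)‖ = 3 / 16 := by norm_num
    rw [this]
    have : ‖s‖ ^ 2 ≤ 1 := pow_le_one₀ (norm_nonneg _) hs
    nlinarith
  linarith [norm_sub_le (g - 1) ((3 / 16 : ℂ) * s ^ 2)]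

lemma sq_mem {s : ℂ} (hs : ‖s‖ ≤ 1) : ‖s ^ 2‖ ≤ 1 := by
  rw [norm_pow]
  exact pow_le_one₀ (norm_nonneg _) hs

lemma Gn_near (n : ℕ) : ∀ s : ℂ, ‖s‖ ≤ 1 → ‖Gn n s - 1‖ ≤ 1 / 4 := by
  induction n with
  | zero => intro s _; simp [Gn]
  | succ n ih =>
    intro s hs
    exact sqrt_near (arg_near (ih _ (sq_mem hs)) hs)

lemma Gn_diff (n : ℕ) : ∀ s : ℂ, ‖s‖ ≤ 1 → ‖Gn (n + 1) s - Gn n s‖ ≤ 1 / 4 * (2 / 3) ^ n := by
  induction n with
  | zero =>
    intro s hs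
    have := Gn_near 1 s hs
    simpa [Gn] using this
  | succ n ih =>
    intro s hs
    have h1 := sqrt_lip (arg_near (Gn_near (n + 1) _ (sq_mem hs)) hs)
      (arg_near (Gn_near n _ (sq_mem hs)) hs)
    have h2 := ih (s ^ 2) (sq_mem hs)
    have h3 : Gn (n + 1) (s ^ 2) - 3 / 16 * s ^ 2 - (Gn n (s ^ 2) - 3 / 16 * s ^ 2)
        = Gn (n + 1) (s ^ 2) - Gn n (s ^ 2) := by ring
    rw [h3] at h1
    calc ‖Gn (n + 1 + 1) s - Gn (n + 1) s‖ ≤ 2 / 3 * ‖Gn (n + 1) (s ^ 2) - Gn n (s ^ 2)‖ := h1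
      _ ≤ 2 / 3 * (1 / 4 * (2 / 3) ^ n) := by gcongr
      _ = 1 / 4 * (2 / 3) ^ (n + 1) := by ring

lemma slit {g s : ℂ} (hg : ‖g - 1‖ ≤ 1 / 4) (hs : ‖s‖ ≤ 1) :
    g - (3 / 16) * s ^ 2 ∈ slitPlane := by
  have h := arg_near hg hs
  left
  have := Complex.abs_re_le_norm (g - (3 / 16) * s ^ 2 - 1)
  have h2 := abs_le.1 (this.trans h)
  simp only [sub_re, one_re] at h2 ⊢
  linarith [h2.1]

lemma Gn_cont (n : ℕ) : ContinuousOn (Gn n) (closedBall 0 1) := by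
  induction n with
  | zero => exact continuousOn_const
  | succ n ih =>
    have h1 : ContinuousOn (fun s : ℂ => Gn n (s ^ 2) - (3 / 16) * s ^ 2) (closedBall 0 1) := by
      apply ContinuousOn.sub
      · apply ih.comp (by fun_prop)
        intro s hs
        simp only [mem_closedBall, dist_zero_right] at hs ⊢
        exact sq_mem hs
      · fun_prop
    exact h1.cpow_const (fun s hs => slit (Gn_near n _ (sq_mem (by simpa using hs))) (by simpa using hs))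

lemma Gn_dif (n : ℕ) : DifferentiableOn ℂ (Gn n) (ball 0 1) := by
  induction n with
  | zero => exact differentiableOn_const _
  | succ n ih =>
    have h1 : DifferentiableOn ℂ (fun s : ℂ => Gn n (s ^ 2) - (3 / 16) * s ^ 2) (ball 0 1) := by
      apply DifferentiableOn.sub
      · apply ih.comp (by fun_prop)
        intro s hs
        simp only [mem_ball, dist_zero_right] at hs ⊢
        rw [norm_pow]
        exact pow_lt_one₀ (norm_nonneg _) hs (by norm_num)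
      · fun_prop
    intro s hs
    have hs' : ‖s‖ ≤ 1 := le_of_lt (by simpa using hs)
    exact (h1 s hs).cpow (differentiableWithinAt_const _)
      (slit (Gn_near n _ (sq_mem hs')) hs')

lemma Gn_even (n : ℕ) (s : ℂ) : Gn n (-s) = Gn n s := by
  cases n with
  | zero => rfl
  | succ n => simp [Gn]

/-- the limit function -/
noncomputable def G (s : ℂ) : ℂ := 1 + ∑' n, (Gn (n + 1) s - Gn n s)

lemma summ : Summable (fun n : ℕ => (1 / 4 : ℝ) * (2 / 3) ^ n) :=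
  (summable_geometric_of_lt_one (by norm_num) (by norm_num)).mul_left _

lemma G_tendsto {s : ℂ} (hs : ‖s‖ ≤ 1) : Tendsto (fun n => Gn n s) atTop (𝓝 (G s)) := by
  have h1 : Summable (fun n => Gn (n + 1) s - Gn n s) :=
    Summable.of_norm_bounded summ (fun n => Gn_diff n s hs)
  have h2 := h1.hasSum.tendsto_sum_nat
  have h3 : ∀ n, ∑ i ∈ Finset.range n, (Gn (i + 1) s - Gn i s) = Gn n s - 1 := by
    intro n
    rw [Finset.sum_range_sub (fun i => Gn i s) n]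
    simp [Gn]
  simp only [h3] at h2
  have h4 := h2.const_add 1
  simp only [add_sub_cancel] at h4
  exact h4

lemma G_near {s : ℂ} (hs : ‖s‖ ≤ 1) : ‖G s - 1‖ ≤ 1 / 4 := by
  have h1 := ((G_tendsto hs).sub_const 1).norm
  exact le_of_tendsto' h1 (fun n => Gn_near n s hs)

lemma G_eq {s : ℂ} (hs : ‖s‖ ≤ 1) : G s ^ 2 = G (s ^ 2) - (3 / 16) * s ^ 2 := by
  have h1 : Tendsto (fun n => Gn (n + 1) s ^ 2) atTop (𝓝 (G s ^ 2)) :=
    ((tendsto_add_atTop_iff_nat 1).2 (G_tendsto hs)).pow 2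
  have h2 : Tendsto (fun n => Gn n (s ^ 2) - (3 / 16) * s ^ 2) atTop
      (𝓝 (G (s ^ 2) - (3 / 16) * s ^ 2)) := (G_tendsto (sq_mem hs)).sub_const _
  have h3 : (fun n => Gn (n + 1) s ^ 2) = fun n => Gn n (s ^ 2) - (3 / 16) * s ^ 2 := by
    funext n
    exact sqrt_sq _
  rw [h3] at h1
  exact tendsto_nhds_unique h1 h2

lemma G_cont : ContinuousOn G (closedBall 0 1) := by
  apply ContinuousOn.add continuousOn_const
  apply continuousOn_tsum (fun n => (Gn_cont (n + 1)).sub (Gn_cont n)) summ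
  intro n s hs
  exact Gn_diff n s (by simpa using hs)

lemma G_dif : DifferentiableOn ℂ G (ball 0 1) := by
  apply DifferentiableOn.add (differentiableOn_const _)
  apply differentiableOn_tsum_of_summable_norm summ
    (fun n => (Gn_dif (n + 1)).sub (Gn_dif n)) isOpen_ball
  intro n s hs
  exact Gn_diff n s (le_of_lt (by simpa using hs))

lemma G_even (s : ℂ) : G (-s) = G s := by
  simp only [G, Gn_even]

lemma G_norm_ge {s : ℂ} (hs : ‖s‖ ≤ 1) : 3 / 4 ≤ ‖G s‖ := by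
  have h1 := G_near hs
  have h2 := norm_sub_norm_le (1 : ℂ) (1 - G s)
  have h3 : ‖1 - G s‖ = ‖G s - 1‖ := norm_sub_rev _ _
  simp only [norm_one, sub_sub_cancel] at h2
  linarith

lemma G_norm_le {s : ℂ} (hs : ‖s‖ ≤ 1) : ‖G s‖ ≤ 5 / 4 := by
  have h1 := G_near hs
  have h2 := norm_add_le (G s - 1) 1
  simp only [sub_add_cancel, norm_one] at h2
  linarith

lemma G_ne {s : ℂ} (hs : ‖s‖ ≤ 1) : G s ≠ 0 := by
  intro h
  have := G_norm_ge hs
  rw [h] at this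
  simp at this
  linarith

lemma G_zero : G 0 = 1 := by
  have h := G_eq (s := 0) (by simp)
  simp at h
  have h1 : G 0 * (G 0 - 1) = 0 := by linear_combination h
  rcases mul_eq_zero.1 h1 with h2 | h2
  · exact absurd h2 (G_ne (by simp))
  · linear_combination h2

lemma G_one : G 1 = 3 / 4 := by
  have h := G_eq (s := 1) (by simp)
  simp at h
  have h1 : (G 1 - 3 / 4) * (G 1 - 1 / 4) = 0 := by linear_combination h
  rcases mul_eq_zero.1 h1 with h2 | h2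
  · linear_combination h2
  · exfalso
    have h3 := G_norm_ge (s := 1) (by simp)
    have h4 : G 1 = 1 / 4 := by linear_combination h2
    rw [h4] at h3
    norm_num at h3

end Pool.Agent.Helper694.Ang
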