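import Mathlib
import Pool.Agent.Helper694.AngA

set_option autoImplicit false

open Complex Metric Set Filter Topology

namespace Pool.Agent.Helper694.Ang

noncomputable def Phi (s : ℂ) : ℂ := s / G s

noncomputable def zc (s : ℂ) : ℂ := G s / s

def Om : Set ℂ := Phi '' ball 0 1

lemma Phi_inv (s : ℂ) : (Phi s)⁻¹ = zc s := by simp [Phi, zc]

lemma Phi_dif : DifferentiableOn ℂ Phi (ball 0 1) :=
  differentiableOn_id.div G_dif (fun s hs => G_ne (le_of_lt (by simpa using hs)))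

lemma Phi_cont : ContinuousOn Phi (closedBall 0 1) :=
  continuousOn_id.div G_cont (fun s hs => G_ne (by simpa using hs))

lemma Phi_eq {s : ℂ} (hs : ‖s‖ ≤ 1) :
    Phi s ^ 2 = Phi (s ^ 2) * (1 + (3 / 16) * Phi s ^ 2) := by
  have h1 := G_ne hs
  have h2 := G_ne (sq_mem hs)
  have h3 := G_eq hs
  unfold Phi
  field_simp
  linear_combination (-16 * s ^ 2) * h3

lemma Phi_lt {s : ℂ} (hs : ‖s‖ < 1) : ‖Phi s‖ < 4 / 3 := by
  unfold Phi
  have h1 := G_norm_ge hs.le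
  rw [norm_div, div_lt_iff₀ (by linarith)]
  linarith

lemma Phi_ne {s : ℂ} (hs : ‖s‖ ≤ 1) (h0 : s ≠ 0) : Phi s ≠ 0 := div_ne_zero h0 (G_ne hs)

lemma Phi_ne' {s : ℂ} (hs : ‖s‖ ≤ 1) (h0 : s ≠ 0) : 1 + (3 / 16) * Phi s ^ 2 ≠ 0 := by
  intro h
  have h1 := Phi_eq hs
  rw [h, mul_zero] at h1
  exact Phi_ne hs h0 (pow_eq_zero_iff (by norm_num) |>.1 h1)

lemma Phi_sq_eq {s t : ℂ} (hs : ‖s‖ ≤ 1) (ht : ‖t‖ ≤ 1) (h : Phi s = Phi t) :
    Phi (s ^ 2) = Phi (t ^ 2) := by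
  by_cases h0 : s = 0
  · subst h0
    have : t = 0 := by
      by_contra h1
      apply Phi_ne ht h1
      rw [← h]
      simp [Phi]
    subst this
    rfl
  · have h1 := Phi_eq hs
    have h2 := Phi_eq ht
    rw [h] at h1
    have h3 := Phi_ne' hs h0
    rw [h] at h3
    have h4 : Phi (s ^ 2) * (1 + (3 / 16) * Phi t ^ 2) = Phi (t ^ 2) * (1 + (3 / 16) * Phi t ^ 2) := by
      rw [← h1, ← h2]
    exact mul_right_cancel₀ h3 h4

lemma Phi_odd (s : ℂ) : Phi (-s) = - Phi s := by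
  simp [Phi, G_even, neg_div]

lemma ball_nhds {s : ℂ} (hs : ‖s‖ < 1) : ball (0 : ℂ) 1 ∈ 𝓝 s :=
  isOpen_ball.mem_nhds (by simpa using hs)

lemma Phi_an {s : ℂ} (hs : ‖s‖ < 1) : AnalyticAt ℂ Phi s :=
  Phi_dif.analyticAt (ball_nhds hs)

lemma Phi_deriv_zero : deriv Phi 0 = 1 := by
  have h1 : HasDerivAt G (deriv G 0) 0 :=
    (G_dif.differentiableAt (ball_nhds (by simp))).hasDerivAt
  have h2 := (hasDerivAt_id (0 : ℂ)).div h1 (G_ne (by simp))
  have h3 : HasDerivAt Phi _ 0 := h2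
  rw [h3.deriv]
  simp [G_zero]

lemma pow_norm_lt {s : ℂ} (hs : ‖s‖ < 1) (n : ℕ) (hn : n ≠ 0) : ‖s ^ n‖ < 1 := by
  rw [norm_pow]
  exact pow_lt_one₀ (norm_nonneg _) hs hn

lemma deriv_step {s : ℂ} (hs : ‖s‖ < 1) (h0 : s ≠ 0) (h : deriv Phi s = 0) :
    deriv Phi (s ^ 2) = 0 := by
  have h2 : ‖s ^ 2‖ < 1 := pow_norm_lt hs 2 (by norm_num)
  have d1 : HasDerivAt Phi (deriv Phi s) s := (Phi_an hs).differentiableAt.hasDerivAt
  have d2 : HasDerivAt Phi (deriv Phi (s ^ 2)) (s ^ 2) := (Phi_an h2).differentiableAt.hasDerivAt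
  have d3 : HasDerivAt (fun s : ℂ => s ^ 2) (2 * s) s := by
    simpa using hasDerivAt_pow 2 s
  have d4 := d2.comp s d3
  have d5 := d1.pow 2
  have d6 := d4.mul ((d5.const_mul (3 / 16 : ℂ)).const_add 1)
  have e : (fun s => Phi s ^ 2) =ᶠ[𝓝 s] fun s => (Phi ∘ fun s => s ^ 2) s * (1 + (3 / 16) * Phi s ^ 2) := by
    filter_upwards [ball_nhds hs] with t ht
    exact Phi_eq (le_of_lt (by simpa using ht))
  have d7 := d5.unique (d6.congr_of_eventuallyEq e)
  rw [h] at d7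
  simp only [Nat.cast_ofNat, Nat.add_one_sub_one, pow_one, mul_zero, Pi.pow_apply, add_zero,
    Function.comp_apply] at d7
  have h3 := Phi_ne' hs.le h0
  have h4 : deriv Phi (s ^ 2) * (2 * s) * (1 + (3 / 16) * Phi s ^ 2) = 0 := by
    exact d7.symm
  rcases mul_eq_zero.1 h4 with h5 | h5
  · rcases mul_eq_zero.1 h5 with h6 | h6
    · exact h6
    · exfalso
      apply h0
      simpa using h6
  · exact absurd h5 h3

lemma tendsto_pow_zero {s : ℂ} (hs : ‖s‖ < 1) : Tendsto (fun n : ℕ => s ^ (2 ^ n)) atTop (𝓝 0) :=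
  (tendsto_pow_atTop_nhds_zero_of_norm_lt_one hs).comp
    (tendsto_pow_atTop_atTop_of_one_lt (by norm_num : 1 < 2))

lemma Phi_deriv_ne {s : ℂ} (hs : ‖s‖ < 1) : deriv Phi s ≠ 0 := by
  intro h
  by_cases h0 : s = 0
  · subst h0
    rw [Phi_deriv_zero] at h
    exact one_ne_zero h
  have h1 : ∀ n : ℕ, deriv Phi (s ^ (2 ^ n)) = 0 := by
    intro n
    induction n with
    | zero => simpa using h
    | succ n ih =>
      have := deriv_step (pow_norm_lt hs (2 ^ n) (by positivity)) (pow_ne_zero _ h0) ih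
      rw [← pow_mul, ← pow_succ] at this
      exact this
  have h2 : Tendsto (fun n : ℕ => deriv Phi (s ^ (2 ^ n))) atTop (𝓝 (deriv Phi 0)) :=
    ((Phi_an (s := 0) (by simp)).deriv.continuousAt.tendsto).comp (tendsto_pow_zero hs)
  simp only [h1] at h2
  have := tendsto_nhds_unique tendsto_const_nhds h2
  rw [Phi_deriv_zero] at this
  exact one_ne_zero this.symm

lemma Phi_strict {s : ℂ} (hs : ‖s‖ < 1) : HasStrictDerivAt Phi (deriv Phi s) s :=
  (Phi_an hs).hasStrictDerivAt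

lemma Phi_inj {s t : ℂ} (hs : ‖s‖ < 1) (ht : ‖t‖ < 1) (h : Phi s = Phi t) : s = t := by
  have h1 : ∀ n : ℕ, Phi (s ^ (2 ^ n)) = Phi (t ^ (2 ^ n)) := by
    intro n
    induction n with
    | zero => simpa using h
    | succ n ih =>
      have := Phi_sq_eq (pow_norm_lt hs (2 ^ n) (by positivity)).le
        (pow_norm_lt ht (2 ^ n) (by positivity)).le ih
      rw [← pow_mul, ← pow_succ, ← pow_mul, ← pow_succ] at this
      exact this
  have hst := Phi_strict (s := 0) (by simp)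
  have h2 := hst.eventually_left_inverse (Phi_deriv_ne (by simp))
  have h3 := (tendsto_pow_zero hs).eventually h2
  have h4 := (tendsto_pow_zero ht).eventually h2
  obtain ⟨n, hn1, hn2⟩ := (h3.and h4).exists
  have h5 : s ^ (2 ^ n) = t ^ (2 ^ n) := by
    rw [← hn1, ← hn2, h1 n]
  have h6 : ∀ k : ℕ, k ≤ n → s ^ (2 ^ (n - k)) = t ^ (2 ^ (n - k)) := by
    intro k
    induction k with
    | zero => intro _; simpa using h5
    | succ k ih =>
      intro hk
      have h7 := ih (by omega)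
      set m := n - (k + 1) with hm
      have h8 : n - k = m + 1 := by omega
      rw [h8, pow_succ, pow_mul, pow_mul] at h7
      rcases sq_eq_sq_iff_eq_or_eq_neg.1 h7 with h9 | h9
      · exact h9
      · have h10 := h1 m
        rw [h9, Phi_odd] at h10
        have h11 : Phi (t ^ 2 ^ m) = 0 := by linear_combination (-1 / 2 : ℂ) * h10
        have h12 : t ^ 2 ^ m = 0 := by
          by_contra h13
          exact Phi_ne (pow_norm_lt ht (2 ^ m) (by positivity)).le h13 h11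
        rw [h9, h12, neg_zero]
  have := h6 n le_rfl
  simpa using this

lemma Om_open : IsOpen Om := by
  rw [isOpen_iff_mem_nhds]
  rintro _ ⟨s, hs, rfl⟩
  have hs' : ‖s‖ < 1 := by simpa using hs
  rw [← (Phi_strict hs').map_nhds_eq (Phi_deriv_ne hs')]
  exact image_mem_map (ball_nhds hs')

lemma Om_conn : IsConnected Om :=
  (isConnected_ball (by norm_num)).image _ (Phi_cont.mono ball_subset_closedBall)

lemma zc_sq {s : ℂ} (hs : ‖s‖ ≤ 1) (h0 : s ≠ 0) : zc (s ^ 2) = zc s ^ 2 + 3 / 16 := by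
  have h3 := G_eq hs
  unfold zc
  field_simp
  linear_combination (-16) * h3

lemma zc_ge {s : ℂ} (hs : ‖s‖ ≤ 1) (h0 : s ≠ 0) : 3 / 4 ≤ ‖zc s‖ := by
  unfold zc
  have h1 := G_norm_ge hs
  rw [norm_div, le_div_iff₀ (norm_pos_iff.2 h0)]
  nlinarith

lemma zc_gt {s : ℂ} (hs : ‖s‖ < 1) (h0 : s ≠ 0) : 3 / 4 < ‖zc s‖ := by
  unfold zc
  have h1 := G_norm_ge hs.le
  rw [norm_div, lt_div_iff₀ (norm_pos_iff.2 h0)]
  nlinarith

/-- the quadratic map -/
noncomputable def qf (z : ℂ) : ℂ := z ^ 2 + 3 / 16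

lemma qf_iter {s : ℂ} (hs : ‖s‖ ≤ 1) (h0 : s ≠ 0) (n : ℕ) : qf^[n] (zc s) = zc (s ^ (2 ^ n)) := by
  induction n with
  | zero => simp
  | succ n ih =>
    rw [Function.iterate_succ_apply', ih]
    have h1 : ‖s ^ 2 ^ n‖ ≤ 1 := by
      rw [norm_pow]; exact pow_le_one₀ (norm_nonneg _) hs
    rw [qf, ← zc_sq h1 (pow_ne_zero _ h0), ← pow_mul, ← pow_succ]

lemma not_mem_Om {x : ℂ} (hx : x ≠ 0) (n : ℕ) (h : ‖qf^[n] x⁻¹‖ ≤ 3 / 4) : x ∉ Om := by
  rintro ⟨s, hs, rfl⟩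
  have hs' : ‖s‖ < 1 := by simpa using hs
  have h0 : s ≠ 0 := by
    rintro rfl
    apply hx
    simp [Phi]
  rw [Phi_inv, qf_iter hs'.le h0] at h
  have := zc_gt (pow_norm_lt hs' (2 ^ n) (by positivity)) (pow_ne_zero (2 ^ n) h0)
  linarith

lemma Phi_frontier {s : ℂ} (hs : ‖s‖ = 1) : Phi s ∈ frontier Om := by
  rw [Om_open.frontier_eq]
  have h0 : s ≠ 0 := by
    rintro rfl
    simp at hs
  constructor
  · have h1 : s ∈ closure (ball (0 : ℂ) 1) := by
      rw [closure_ball _ (by norm_num)]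
      simp [hs]
    have h2 : ContinuousWithinAt Phi (ball 0 1) s :=
      (Phi_cont s (by simp [hs])).mono ball_subset_closedBall
    exact h2.mem_closure_image h1
  · rintro ⟨t, ht, h⟩
    have ht' : ‖t‖ < 1 := by simpa using ht
    have ht0 : t ≠ 0 := by
      rintro rfl
      apply Phi_ne hs.le h0
      rw [← h]
      simp [Phi]
    have h1 : zc t = zc s := by rw [← Phi_inv, ← Phi_inv, h]
    have h2 : ∀ n : ℕ, zc (t ^ (2 ^ n)) = zc (s ^ (2 ^ n)) := by
      intro n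
      rw [← qf_iter ht'.le ht0, ← qf_iter hs.le h0, h1]
    have h3 : ∀ n : ℕ, 3 / 5 ≤ ‖t ^ (2 ^ n)‖ := by
      intro n
      have hsn : ‖s ^ (2 ^ n)‖ = 1 := by rw [norm_pow, hs, one_pow]
      have h4 : ‖zc (s ^ (2 ^ n))‖ ≤ 5 / 4 := by
        unfold zc
        rw [norm_div, hsn, div_one]
        exact G_norm_le hsn.le
      rw [← h2] at h4
      have htn := pow_norm_lt ht' (2 ^ n) (by positivity)
      unfold zc at h4
      rw [norm_div, div_le_iff₀ (norm_pos_iff.2 (pow_ne_zero _ ht0))] at h4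
      have := G_norm_ge htn.le
      linarith
    have h5 := (tendsto_pow_zero ht').norm
    have h6 := ge_of_tendsto' h5 h3
    simp at h6
    linarith

end Pool.Agent.Helper694.Ang
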