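import Mathlib
import Pool.Agent.Helper694.AngB

set_option autoImplicit false

open Complex Metric Set Filter Topology MeasureTheory
open scoped ENNReal Real

namespace Pool.Agent.Helper694.Ang

/-- superharmonic (nonnegative, lower semicontinuous, super mean value property) -/
def SH (u : ℂ → ENNReal) (Ω : Set ℂ) : Prop :=
  LowerSemicontinuousOn u Ω ∧ ∀ a : ℂ, ∀ r : ℝ, 0 < r → Metric.closedBall a r ⊆ Ω →
        ∫⁻ t in Set.Ioc (0:ℝ) (2 * Real.pi), u (a + (r:ℂ) * Complex.exp ((t:ℂ) * Complex.I))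
          ≤ ENNReal.ofReal (2 * Real.pi) * u a

noncomputable def psi : ℂ → ℂ := Function.invFunOn Phi (ball 0 1)

lemma psi_Phi {s : ℂ} (hs : ‖s‖ < 1) : psi (Phi s) = s := by
  have h1 : Phi s ∈ Phi '' ball 0 1 := ⟨s, by simpa using hs, rfl⟩
  have h2 := Function.invFunOn_mem h1
  have h3 := Function.invFunOn_eq h1
  exact Phi_inj (show ‖Function.invFunOn Phi (ball 0 1) (Phi s)‖ < 1 by simpa using h2) hs h3

lemma psi_dif {s : ℂ} (hs : ‖s‖ < 1) : DifferentiableAt ℂ psi (Phi s) := by
  have h := (Phi_strict hs).to_local_left_inverse (Phi_deriv_ne hs) (g := psi) (by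
    filter_upwards [ball_nhds hs] with t ht
    exact psi_Phi (by simpa using ht))
  exact h.hasDerivAt.differentiableAt

lemma psi_difOn : DifferentiableOn ℂ psi Om := by
  rintro _ ⟨s, hs, rfl⟩
  exact (psi_dif (by simpa using hs)).differentiableWithinAt

lemma Phi_psi {z : ℂ} (hz : z ∈ Om) : Phi (psi z) = z ∧ ‖psi z‖ < 1 := by
  obtain ⟨s, hs, rfl⟩ := hz
  have hs' : ‖s‖ < 1 := by simpa using hs
  rw [psi_Phi hs']
  exact ⟨rfl, hs'⟩

lemma ofReal_int_le {f : ℝ → ℝ} (hf : Continuous f) :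
    ENNReal.ofReal (∫ t in (0:ℝ)..(2 * π), f t) ≤
      ∫⁻ t in Ioc (0:ℝ) (2 * π), ENNReal.ofReal (f t) := by
  have hpi : (0:ℝ) ≤ 2 * π := by positivity
  rw [intervalIntegral.integral_of_le hpi]
  have h1 : Integrable (fun t => max (f t) 0) (volume.restrict (Ioc (0:ℝ) (2 * π))) := by
    apply (Continuous.integrableOn_Ioc (by fun_prop))
  have h2 : ∫ t in Ioc (0:ℝ) (2 * π), f t ≤ ∫ t in Ioc (0:ℝ) (2 * π), max (f t) 0 := by
    apply setIntegral_mono hf.integrableOn_Ioc h1
    intro t
    exact le_max_left _ _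
  have h3 := ofReal_integral_eq_lintegral_ofReal h1 (Eventually.of_forall (fun t => le_max_right _ _))
  calc ENNReal.ofReal (∫ t in Ioc (0:ℝ) (2 * π), f t)
      ≤ ENNReal.ofReal (∫ t in Ioc (0:ℝ) (2 * π), max (f t) 0) := ENNReal.ofReal_le_ofReal h2
    _ = ∫⁻ t in Ioc (0:ℝ) (2 * π), ENNReal.ofReal (max (f t) 0) := h3
    _ = ∫⁻ t in Ioc (0:ℝ) (2 * π), ENNReal.ofReal (f t) := by
        congr 1
        funext t
        rcases le_total (f t) 0 with h | h
        · rw [max_eq_right h, ENNReal.ofReal_zero, ENNReal.ofReal_of_nonpos h]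
        · rw [max_eq_left h]

/-- mean value: real part of analytic plus a square -/
lemma mean_gt {L p : ℂ → ℂ} {z1 : ℂ} {r : ℝ} (hr : 0 < r)
    (hL : DiffContOnCl ℂ L (ball z1 r)) (hp : ContinuousOn p (closedBall z1 r))
    (hp1 : ∀ z ∈ sphere z1 r, p z ≠ 0) (c δ : ℝ) (hδ : 0 < δ) :
    2 * π * c < ∫ t in (0:ℝ)..(2 * π),
      (c + ((L (z1 + r * exp (t * I)) - L z1).re + δ * ‖p (z1 + r * exp (t * I))‖ ^ 2)) := by
  have hmem : ∀ t : ℝ, z1 + r * exp (t * I) ∈ sphere z1 r := by
    intro t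
    simp [abs_of_pos hr]
  have hcl : closure (ball z1 r) = closedBall z1 r := closure_ball _ hr.ne'
  have hLc : ContinuousOn L (closedBall z1 r) := by
    rw [← hcl]; exact hL.continuousOn
  have hcirc : Continuous (fun t : ℝ => z1 + r * exp (t * I)) := by fun_prop
  have c1 : Continuous (fun t : ℝ => L (z1 + r * exp (t * I))) :=
    hLc.comp_continuous hcirc (fun t => sphere_subset_closedBall (hmem t))
  have c2 : Continuous (fun t : ℝ => p (z1 + r * exp (t * I))) :=
    hp.comp_continuous hcirc (fun t => sphere_subset_closedBall (hmem t))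
  have hav := (show DiffContOnCl ℂ L (ball z1 |r|) by rwa [abs_of_pos hr]).circleAverage
  rw [Real.circleAverage_def] at hav
  have h2pi : (2 * π : ℝ) ≠ 0 := by positivity
  have h1 : ∫ t in (0:ℝ)..(2 * π), L (z1 + r * exp (t * I)) = (2 * π : ℝ) • L z1 := by
    rw [← hav, smul_smul, mul_inv_cancel₀ h2pi, one_smul]
    rfl
  have h2 : ∫ t in (0:ℝ)..(2 * π), (L (z1 + r * exp (t * I)) - L z1) = 0 := by
    rw [intervalIntegral.integral_sub (c1.intervalIntegrable _ _)
      (continuous_const.intervalIntegrable _ _), h1, intervalIntegral.integral_const]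
    simp
  have h3 : ∫ t in (0:ℝ)..(2 * π), (L (z1 + r * exp (t * I)) - L z1).re = 0 := by
    have := Complex.reCLM.intervalIntegral_comp_comm (a := 0) (b := 2 * π) (μ := volume)
      (f := fun t : ℝ => L (z1 + r * exp (t * I)) - L z1)
      ((c1.sub continuous_const).intervalIntegrable _ _)
    simp only [Complex.reCLM_apply] at this
    rw [this, h2]
    rfl
  have c3 : Continuous (fun t : ℝ => (L (z1 + r * exp (t * I)) - L z1).re) :=
    Complex.continuous_re.comp (c1.sub continuous_const)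
  have c4 : Continuous (fun t : ℝ => δ * ‖p (z1 + r * exp (t * I))‖ ^ 2) :=
    continuous_const.mul (c2.norm.pow 2)
  have c34 : Continuous (fun t : ℝ => (L (z1 + r * exp (t * I)) - L z1).re +
      δ * ‖p (z1 + r * exp (t * I))‖ ^ 2) := c3.add c4
  rw [intervalIntegral.integral_add (continuous_const.intervalIntegrable _ _)
      (c34.intervalIntegrable _ _),
    intervalIntegral.integral_add (c3.intervalIntegrable _ _) (c4.intervalIntegrable _ _), h3,
    intervalIntegral.integral_const]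
  have h4 : 0 < ∫ t in (0:ℝ)..(2 * π), δ * ‖p (z1 + r * exp (t * I))‖ ^ 2 := by
    apply intervalIntegral.intervalIntegral_pos_of_pos_on (c4.intervalIntegrable _ _)
    · intro t _
      have := norm_pos_iff.2 (hp1 _ (hmem t))
      positivity
    · positivity
  simp only [sub_zero, smul_eq_mul, zero_add]
  linarith

lemma sub_mean {u : ℂ → ENNReal} (hu : SH u Om) {ρ : ℝ} (h0 : 0 < ρ) (h1 : ρ < 1)
    {q : ℂ → ℂ} (hq : Differentiable ℂ q)
    (hb : ∀ s : ℂ, ‖s‖ = ρ → ENNReal.ofReal (q s).re ≤ u (Phi s)) :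
    ENNReal.ofReal (q 0).re ≤ u (Phi 0) := by
  by_contra hcon
  rw [not_le] at hcon
  have hfin : u (Phi 0) < ⊤ := hcon.trans ENNReal.ofReal_lt_top
  set v0 := (u (Phi 0)).toReal with hv0
  have hv0' : u (Phi 0) = ENNReal.ofReal v0 := (ENNReal.ofReal_toReal hfin.ne).symm
  have hv0n : 0 ≤ v0 := ENNReal.toReal_nonneg
  rw [hv0'] at hcon
  have hq0 : v0 < (q 0).re := (ENNReal.ofReal_lt_ofReal_iff_of_nonneg hv0n).1 hcon
  -- choose δ
  set δ : ℝ := ((q 0).re - v0) / (2 * ρ ^ 2) with hδdef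
  have hδ : 0 < δ := by
    apply div_pos <;> [linarith; positivity]
  have hδρ : δ * ρ ^ 2 = ((q 0).re - v0) / 2 := by
    rw [hδdef]; field_simp
  set H : ℂ → ℝ := fun s => (q s).re + δ * (‖s‖ ^ 2 - ρ ^ 2) with hH
  have hHc : Continuous H := by
    have := hq.continuous
    fun_prop
  obtain ⟨M, hM⟩ : ∃ M : ℝ, ∀ s ∈ closedBall (0:ℂ) ρ, H s ≤ M := by
    obtain ⟨M, hM⟩ := (isCompact_closedBall (0:ℂ) ρ).bddAbove_image hHc.continuousOn
    exact ⟨M, fun s hs => hM ⟨s, hs, rfl⟩⟩
  have hsub : closedBall (0:ℂ) ρ ⊆ ball 0 1 := closedBall_subset_ball h1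
  have hmaps : MapsTo Phi (closedBall 0 ρ) Om := fun s hs => ⟨s, hsub hs, rfl⟩
  have hl1 : LowerSemicontinuousOn (u ∘ Phi) (closedBall 0 ρ) :=
    hu.1.comp (Phi_cont.mono (hsub.trans ball_subset_closedBall)) hmaps
  have hl2 : LowerSemicontinuousOn (fun s => ENNReal.ofReal (M - H s)) (closedBall 0 ρ) :=
    (ENNReal.continuous_ofReal.comp (continuous_const.sub hHc)).continuousOn.lowerSemicontinuousOn
  have hl := hl1.add hl2
  obtain ⟨s, hs, hmin⟩ := hl.exists_isMinOn ⟨0, by simp [h0.le]⟩ (isCompact_closedBall _ _)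
  rw [isMinOn_iff] at hmin
  simp only [Function.comp_apply] at hmin
  have hH0 : v0 < H 0 := by
    simp only [hH, norm_zero]
    nlinarith
  have hM0 : H 0 ≤ M := hM 0 (by simp [h0.le])
  have hlt : u (Phi s) + ENNReal.ofReal (M - H s) < ENNReal.ofReal M := by
    refine (hmin 0 (by simp [h0.le])).trans_lt ?_
    rw [hv0', ← ENNReal.ofReal_add hv0n (by linarith)]
    exact (ENNReal.ofReal_lt_ofReal_iff (by linarith)).2 (by linarith)
  have hsM : H s ≤ M := hM s hs
  have hsρ : ‖s‖ < ρ := by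
    rcases lt_or_eq_of_le (show ‖s‖ ≤ ρ by simpa using hs) with h | h
    · exact h
    · exfalso
      have h2 := hb s h
      have h3 : (q s).re = H s := by simp [hH, h]
      rw [h3] at h2
      have h4 : ENNReal.ofReal M ≤ u (Phi s) + ENNReal.ofReal (M - H s) := by
        calc ENNReal.ofReal M = ENNReal.ofReal (H s + (M - H s)) := by ring_nf
          _ ≤ ENNReal.ofReal (H s) + ENNReal.ofReal (M - H s) := ENNReal.ofReal_add_le
          _ ≤ _ := by gcongr
      exact absurd hlt (not_lt.2 h4)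
  have hs1 : ‖s‖ < 1 := hsρ.trans h1
  have hufin : u (Phi s) < ⊤ := by
    refine lt_of_le_of_lt le_self_add (hlt.trans ENNReal.ofReal_lt_top)
  set u1 := (u (Phi s)).toReal with hu1
  have hu1' : u (Phi s) = ENNReal.ofReal u1 := (ENNReal.ofReal_toReal hufin.ne).symm
  have hu1n : 0 ≤ u1 := ENNReal.toReal_nonneg
  -- lower bound everywhere
  have hlow : ∀ t ∈ closedBall (0:ℂ) ρ, ENNReal.ofReal (u1 - H s + H t) ≤ u (Phi t) := by
    intro t ht
    have h2 := hmin t ht
    rw [hu1', ← ENNReal.ofReal_add hu1n (by linarith)] at h2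
    by_cases hT : u (Phi t) = ⊤
    · rw [hT]; exact le_top
    · have h3 : u (Phi t) = ENNReal.ofReal (u (Phi t)).toReal := (ENNReal.ofReal_toReal hT).symm
      have hn : 0 ≤ (u (Phi t)).toReal := ENNReal.toReal_nonneg
      have hMt := hM t ht
      rw [h3, ← ENNReal.ofReal_add hn (by linarith)] at h2
      rw [h3]
      apply ENNReal.ofReal_le_ofReal
      have h4 := (ENNReal.ofReal_le_ofReal_iff (by linarith)).1 h2
      linarith
  -- local inverse
  set z1 := Phi s with hz1
  have hz1m : z1 ∈ Om := ⟨s, by simpa using hs1, rfl⟩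
  have hpz : psi z1 = s := psi_Phi hs1
  have hnh : {z | z ∈ Om ∧ ‖psi z‖ < ρ} ∈ 𝓝 z1 := by
    have a1 : Om ∈ 𝓝 z1 := Om_open.mem_nhds hz1m
    have a2 : ContinuousAt psi z1 := (psi_dif hs1).continuousAt
    have a3 : ∀ᶠ z in 𝓝 z1, ‖psi z‖ < ρ := by
      apply a2.norm.eventually_lt_const
      show ‖psi z1‖ < ρ
      rw [hpz]; exact hsρ
    filter_upwards [a1, a3] with z h2 h3
    exact ⟨h2, h3⟩
  obtain ⟨r, hr, hrsub⟩ := nhds_basis_closedBall.mem_iff.1 hnh
  have hballOm : closedBall z1 r ⊆ Om := fun z hz => (hrsub hz).1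
  have hmean := hu.2 z1 r hr hballOm
  -- functions
  set L : ℂ → ℂ := fun z => q (psi z) + 2 * δ * (starRingEnd ℂ) s * psi z with hL
  have hLd : DiffContOnCl ℂ L (ball z1 r) := by
    have d1 : DifferentiableOn ℂ psi (closedBall z1 r) := psi_difOn.mono hballOm
    have d2 : DifferentiableOn ℂ L (closedBall z1 r) := by
      apply DifferentiableOn.add
      · exact hq.comp_differentiableOn d1
      · exact d1.const_mul _
    apply DifferentiableOn.diffContOnCl
    rw [closure_ball _ hr.ne']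
    exact d2
  have hpc : ContinuousOn (fun z => psi z - s) (closedBall z1 r) :=
    ((psi_difOn.mono hballOm).continuousOn).sub continuousOn_const
  have hp1 : ∀ z ∈ sphere z1 r, psi z - s ≠ 0 := by
    intro z hz h2
    have h3 : psi z = s := by linear_combination h2
    have h4 := (Phi_psi (hballOm (sphere_subset_closedBall hz))).1
    rw [h3] at h4
    rw [mem_sphere, ← h4, hz1, dist_self] at hz
    exact hr.ne hz
  have hgt := mean_gt hr hLd hpc hp1 u1 δ hδ
  have hid : ∀ z ∈ closedBall z1 r,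
      u1 + ((L z - L z1).re + δ * ‖psi z - s‖ ^ 2) = u1 - H s + H (psi z) := by
    intro z _
    simp only [hL, hH, hpz]
    rw [← Complex.normSq_eq_norm_sq, ← Complex.normSq_eq_norm_sq, ← Complex.normSq_eq_norm_sq]
    simp only [Complex.normSq_apply, sub_re, add_re, mul_re, sub_im, mul_im, conj_re, conj_im,
      ofReal_re, ofReal_im, re_ofNat, im_ofNat]
    ring
  have hmem : ∀ t : ℝ, z1 + r * exp (t * I) ∈ closedBall z1 r := by
    intro t
    simp [abs_of_pos hr]
  have hcirc : Continuous (fun t : ℝ => z1 + r * exp (t * I)) := by fun_prop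
  have cL : Continuous (fun t : ℝ => L (z1 + r * exp (t * I))) := by
    have hLc : ContinuousOn L (closedBall z1 r) := by
      rw [← closure_ball _ hr.ne']; exact hLd.continuousOn
    exact hLc.comp_continuous hcirc hmem
  have cp : Continuous (fun t : ℝ => psi (z1 + r * exp (t * I)) - s) :=
    hpc.comp_continuous hcirc hmem
  have cf : Continuous (fun t : ℝ => (u1 + ((L (z1 + r * exp (t * I)) - L z1).re +
      δ * ‖psi (z1 + r * exp (t * I)) - s‖ ^ 2))) := by
    have e1 : Continuous (fun t : ℝ => (L (z1 + r * exp (t * I)) - L z1).re) :=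
      Complex.continuous_re.comp (cL.sub continuous_const)
    exact continuous_const.add (e1.add (continuous_const.mul (cp.norm.pow 2)))
  have hfinal : ENNReal.ofReal (∫ t in (0:ℝ)..(2 * π),
      (u1 + ((L (z1 + r * exp (t * I)) - L z1).re + δ * ‖psi (z1 + r * exp (t * I)) - s‖ ^ 2)))
      ≤ ENNReal.ofReal (2 * π * u1) := by
    refine (ofReal_int_le cf).trans ?_
    rw [ENNReal.ofReal_mul (by positivity), ← hu1']
    refine le_trans ?_ hmean
    apply lintegral_mono
    intro t
    have hm := hmem t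
    have h2 := hrsub hm
    have h3 := (Phi_psi h2.1).1
    have h4 := hlow (psi (z1 + r * exp (t * I))) (by simpa using h2.2.le)
    rw [h3, ← hid _ hm] at h4
    exact h4
  rw [ENNReal.ofReal_le_ofReal_iff (by positivity)] at hfinal
  linarith

end Pool.Agent.Helper694.Ang
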