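import Mathlib
import Pool.Agent.Helper694.AngC

set_option autoImplicit false

open Complex Metric Set Filter Topology MeasureTheory
open scoped ENNReal Real

namespace Pool.Agent.Helper694.Ang

instance fact2pi : Fact ((0:ℝ) < 2 * π) := ⟨by positivity⟩

/-- circle point -/
noncomputable def cp (y : AddCircle (2 * π)) : ℂ := (AddCircle.toCircle y : ℂ)

lemma cp_norm (y : AddCircle (2 * π)) : ‖cp y‖ = 1 := Circle.norm_coe _

lemma cp_coe (t : ℝ) : cp (t : AddCircle (2 * π)) = exp (t * I) := by
  unfold cp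
  rw [AddCircle.toCircle_apply_mk, Circle.coe_exp]
  congr 2
  have : (2 * π / (2 * π) : ℝ) = 1 := div_self (by positivity)
  rw [this, one_mul]

lemma cp_cont : Continuous cp := by
  unfold cp
  exact continuous_subtype_val.comp AddCircle.continuous_toCircle

lemma cp_nsmul (n : ℕ) (y : AddCircle (2 * π)) : cp (n • y) = cp y ^ n := by
  unfold cp
  rw [AddCircle.toCircle_nsmul]
  simp

lemma fourier_eq (n : ℤ) :
    ∃ q1 q2 : ℂ → ℂ, Differentiable ℂ q1 ∧ Differentiable ℂ q2 ∧
      ∀ y : AddCircle (2 * π), fourier n y = q1 (cp y) + (starRingEnd ℂ) (q2 (cp y)) := by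
  rcases Int.eq_nat_or_neg n with ⟨m, rfl | rfl⟩
  · refine ⟨fun s => s ^ m, fun _ => 0, by fun_prop, by fun_prop, ?_⟩
    intro y
    rw [fourier_apply]
    simp only [natCast_zsmul, map_zero, add_zero]
    exact cp_nsmul m y
  · refine ⟨fun _ => 0, fun s => s ^ m, by fun_prop, by fun_prop, ?_⟩
    intro y
    rw [fourier_neg, fourier_apply]
    simp only [natCast_zsmul, zero_add]
    congr 1
    exact cp_nsmul m y

lemma span_eq {P : C(AddCircle (2 * π), ℂ)} (hP : P ∈ Submodule.span ℂ (range (@fourier (2 * π)))) :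
    ∃ q1 q2 : ℂ → ℂ, Differentiable ℂ q1 ∧ Differentiable ℂ q2 ∧
      ∀ y : AddCircle (2 * π), P y = q1 (cp y) + (starRingEnd ℂ) (q2 (cp y)) := by
  induction hP using Submodule.span_induction with
  | mem x hx =>
    obtain ⟨n, rfl⟩ := hx
    exact fourier_eq n
  | zero =>
    exact ⟨fun _ => 0, fun _ => 0, by fun_prop, by fun_prop, by intro y; simp⟩
  | add x y _ _ hx hy =>
    obtain ⟨a1, a2, h1, h2, h3⟩ := hx
    obtain ⟨b1, b2, g1, g2, g3⟩ := hy
    refine ⟨fun s => a1 s + b1 s, fun s => a2 s + b2 s, h1.add g1, h2.add g2, ?_⟩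
    intro t
    simp only [ContinuousMap.add_apply, h3, g3, map_add]
    ring
  | smul c x _ hx =>
    obtain ⟨a1, a2, h1, h2, h3⟩ := hx
    refine ⟨fun s => c * a1 s, fun s => (starRingEnd ℂ) c * a2 s, h1.const_mul c,
      h2.const_mul _, ?_⟩
    intro t
    simp only [ContinuousMap.smul_apply, h3, map_mul, smul_eq_mul, Complex.conj_conj]
    ring

/-- real continuous functions on the circle are approximated by real parts of entire functions -/
lemma approx (φ : C(AddCircle (2 * π), ℝ)) {η : ℝ} (hη : 0 < η) :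
    ∃ q : ℂ → ℂ, Differentiable ℂ q ∧ ∀ y : AddCircle (2 * π), |(q (cp y)).re - φ y| < η := by
  set φc : C(AddCircle (2 * π), ℂ) := ⟨fun y => (φ y : ℂ), by fun_prop⟩ with hφc
  have h1 : φc ∈ (Submodule.span ℂ (range (@fourier (2 * π)))).topologicalClosure := by
    rw [span_fourier_closure_eq_top]; trivial
  have h2 : φc ∈ closure ((Submodule.span ℂ (range (@fourier (2 * π))) : Set _)) := h1
  obtain ⟨P, hP, hPd⟩ := Metric.mem_closure_iff.1 h2 η hη
  obtain ⟨q1, q2, d1, d2, h3⟩ := span_eq hP
  refine ⟨fun s => q1 s + q2 s, d1.add d2, ?_⟩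
  intro y
  have h4 : ‖φc y - P y‖ < η := by
    have h5 := (ContinuousMap.dist_lt_iff hη).1 hPd y
    rwa [dist_eq_norm] at h5
  have h6 := (Complex.abs_re_le_norm (φc y - P y)).trans_lt h4
  have h7 : (φc y - P y).re = -((q1 (cp y) + q2 (cp y)).re - φ y) := by
    rw [h3]
    simp [hφc]
  rw [h7, abs_neg] at h6
  exact h6

lemma mean_entire {q : ℂ → ℂ} (hq : Differentiable ℂ q) :
    ∫ y : AddCircle (2 * π), (q (cp y)).re = 2 * π * (q 0).re := by
  rw [← AddCircle.intervalIntegral_preimage (2 * π) 0]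
  simp only [cp_coe, zero_add]
  have hav := (show DiffContOnCl ℂ q (ball 0 |(1:ℝ)|) from hq.diffContOnCl).circleAverage
  rw [Real.circleAverage_def] at hav
  have h2pi : (2 * π : ℝ) ≠ 0 := by positivity
  have hc : Continuous (fun t : ℝ => q (exp (t * I))) := hq.continuous.comp (by fun_prop)
  have h1 : ∫ t in (0:ℝ)..(2 * π), q (exp (t * I)) = (2 * π : ℝ) • q 0 := by
    rw [← hav, smul_smul, mul_inv_cancel₀ h2pi, one_smul]
    simp [circleMap]
  have := Complex.reCLM.intervalIntegral_comp_comm (a := 0) (b := 2 * π) (μ := volume)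
      (f := fun t : ℝ => q (exp (t * I))) (hc.intervalIntegrable _ _)
  simp only [Complex.reCLM_apply] at this
  rw [this, h1]
  simp

lemma compact_bound {u : ℂ → ENNReal} (hu : SH u Om) {ρ : ℝ} (h0 : 0 < ρ) (h1 : ρ < 1)
    {C U : Set (AddCircle (2 * π))} (hC : IsCompact C) (hU : IsOpen U) (hCU : C ⊆ U)
    (hv : ∀ y ∈ U, (1 / 2 : ENNReal) ≤ u (Phi (ρ * cp y))) {η : ℝ} (hη : 0 < η) :
    ENNReal.ofReal ((volume C).toReal / (4 * π) - 2 * η) ≤ u (Phi 0) := by
  obtain ⟨φ, hφ0, hφ1, hφ⟩ := exists_continuous_zero_one_of_isClosed (hU.isClosed_compl)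
    hC.isClosed (disjoint_compl_left_iff_subset.2 hCU)
  obtain ⟨q, hq, hqa⟩ := approx ((1/2 : ℝ) • φ - ContinuousMap.const _ η) hη
  have hqa' : ∀ y, φ y / 2 - 2 * η < (q (cp y)).re ∧ (q (cp y)).re < φ y / 2 := by
    intro y
    have := abs_lt.1 (hqa y)
    simp only [ContinuousMap.sub_apply, ContinuousMap.smul_apply, smul_eq_mul,
      ContinuousMap.const_apply] at this
    constructor <;> linarith [this.1, this.2]
  have hm : ENNReal.ofReal (q (0 / ρ)).re ≤ u (Phi 0) := by
    apply sub_mean hu h0 h1 (q := fun s => q (s / ρ)) (hq.comp (by fun_prop))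
    intro s hs
    have hs' : ‖s / ρ‖ = 1 := by
      rw [norm_div, hs]
      simp [abs_of_pos h0, h0.ne']
    obtain ⟨y, hy⟩ : ∃ y : AddCircle (2 * π), cp y = s / ρ := by
      refine ⟨((s / ρ).arg : ℝ), ?_⟩
      rw [cp_coe]
      have := Complex.norm_mul_exp_arg_mul_I (s / ρ)
      rw [hs'] at this
      simpa using this
    have hρc : (ρ : ℂ) ≠ 0 := by exact_mod_cast h0.ne'
    have hsy : s = ρ * cp y := by
      rw [hy, mul_div_cancel₀ _ hρc]
    rw [← hy]
    by_cases hyU : y ∈ U
    · have h3 := hv y hyU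
      rw [← hsy] at h3
      refine le_trans ?_ h3
      have h4 : (q (cp y)).re ≤ 1 / 2 := by
        have := (hqa' y).2
        have := (hφ y).2
        linarith
      calc ENNReal.ofReal (q (cp y)).re ≤ ENNReal.ofReal (1 / 2) := ENNReal.ofReal_le_ofReal h4
        _ = 1 / 2 := by
          rw [ENNReal.ofReal_div_of_pos (by norm_num)]; simp
    · have h3 : φ y = 0 := hφ0 hyU
      have := (hqa' y).2
      rw [h3] at this
      rw [ENNReal.ofReal_of_nonpos (by linarith)]
      exact bot_le
  rw [zero_div] at hm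
  refine le_trans (ENNReal.ofReal_le_ofReal ?_) hm
  have h3 := mean_entire hq
  have hvol : (volume (univ : Set (AddCircle (2 * π)))).toReal = 2 * π := by
    rw [AddCircle.measure_univ, ENNReal.toReal_ofReal (by positivity)]
  have hqc : Continuous (fun y : AddCircle (2 * π) => (q (cp y)).re) :=
    Complex.continuous_re.comp (hq.continuous.comp cp_cont)
  have h4 : ∫ y : AddCircle (2 * π), (C.indicator (fun _ => (1 / 2 : ℝ)) y - 2 * η) ≤
      ∫ y : AddCircle (2 * π), (q (cp y)).re := by
    apply integral_mono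
    · apply Integrable.sub
      · exact (integrable_const _).indicator hC.measurableSet
      · exact integrable_const _
    · exact hqc.integrable_of_hasCompactSupport (HasCompactSupport.of_compactSpace _)
    · intro y
      have := (hqa' y).1
      by_cases hy : y ∈ C
      · have h5 : φ y = 1 := hφ1 hy
        simp only [indicator_of_mem hy]
        linarith
      · simp only [indicator_of_notMem hy]
        have := (hφ y).1
        linarith
  have h5 : ∫ y : AddCircle (2 * π), (C.indicator (fun _ => (1 / 2 : ℝ)) y - 2 * η) =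
      (volume C).toReal / 2 - 2 * η * (2 * π) := by
    rw [integral_sub ((integrable_const _).indicator hC.measurableSet) (integrable_const _),
      integral_indicator hC.measurableSet, setIntegral_const, integral_const]
    simp only [Measure.real, hvol, smul_eq_mul]
    ring
  rw [h5, h3] at h4
  have hpi := Real.pi_pos
  rw [div_sub' (by positivity), div_le_iff₀ (by positivity)]
  nlinarith

/-- main potential theoretic lower bound -/
lemma lower {u : ℂ → ENNReal} (hu : SH u Om) {A : Set (AddCircle (2 * π))}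
    (hA : ∀ y ∈ A, 1 ≤ Filter.liminf u (nhdsWithin (Phi (cp y)) Om)) (hA0 : 0 < volume A) :
    ENNReal.ofReal ((volume A).toReal / (16 * π)) ≤ u (Phi 0) := by
  have hAfin : volume A < ⊤ := measure_lt_top _ _
  set ρ : ℕ → ℝ := fun n => 1 - 1 / ((n:ℝ) + 2) with hρ
  have hρ0 : ∀ n, 0 < ρ n := by
    intro n
    simp only [hρ]
    have : (1:ℝ) / (n + 2) < 1 := by
      rw [div_lt_one (by positivity)]; linarith [Nat.cast_nonneg (α := ℝ) n]
    linarith
  have hρ1 : ∀ n, ρ n < 1 := by
    intro n
    simp only [hρ]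
    have : (0:ℝ) < 1 / (n + 2) := by positivity
    linarith
  have hρt : Tendsto ρ atTop (𝓝 1) := by
    have h1 : Tendsto (fun n : ℕ => (1:ℝ) / ((n:ℝ) + 2)) atTop (𝓝 0) := by
      have := tendsto_one_div_add_atTop_nhds_zero_nat (𝕜 := ℝ)
      have h2 := (tendsto_add_atTop_iff_nat 1).2 this
      refine h2.congr (fun n => ?_)
      push_cast
      ring_nf
    simpa [hρ] using h1.const_sub 1
  set U : ℕ → Set (AddCircle (2 * π)) := fun n => {y | (1/2 : ENNReal) < u (Phi (ρ n * cp y))} with hU
  have hnorm : ∀ n y, ‖(ρ n : ℂ) * cp y‖ = ρ n := by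
    intro n y
    rw [norm_mul, cp_norm, mul_one, Complex.norm_real, Real.norm_of_nonneg (hρ0 n).le]
  have hUo : ∀ n, IsOpen (U n) := by
    intro n
    have hl : LowerSemicontinuous (fun y : AddCircle (2 * π) => u (Phi (ρ n * cp y))) := by
      rw [← lowerSemicontinuousOn_univ_iff]
      apply hu.1.comp (g := fun y : AddCircle (2 * π) => Phi (ρ n * cp y)) (t := univ)
      · apply Phi_cont.comp (t := closedBall 0 1)
        · exact (continuous_const.mul cp_cont).continuousOn
        · intro y _
          rw [mem_closedBall_zero_iff, hnorm]; exact (hρ1 n).le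
      · intro y _
        exact ⟨_, by rw [mem_ball_zero_iff, hnorm]; exact hρ1 n, rfl⟩
    exact hl.isOpen_preimage _
  have hsub : A ⊆ ⋃ N, ⋂ n, ⋂ (_ : N ≤ n), U n := by
    intro y hy
    have h1 : (1/2 : ENNReal) < Filter.liminf u (nhdsWithin (Phi (cp y)) Om) :=
      lt_of_lt_of_le (by
        rw [ENNReal.div_lt_iff] <;> norm_num) (hA y hy)
    have h2 := eventually_lt_of_lt_liminf h1
    have h3 : Tendsto (fun n => Phi (ρ n * cp y)) atTop (𝓝[Om] (Phi (cp y))) := by
      apply tendsto_nhdsWithin_iff.2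
      constructor
      · have h4 : ContinuousWithinAt Phi (closedBall 0 1) (cp y) := Phi_cont _ (by simp [cp_norm])
        have h5 : Tendsto (fun n => (ρ n : ℂ) * cp y) atTop (𝓝[closedBall 0 1] (cp y)) := by
          apply tendsto_nhdsWithin_iff.2
          constructor
          · have h6 : Tendsto (fun n => (ρ n : ℂ)) atTop (𝓝 ((1:ℝ):ℂ)) :=
              (Complex.continuous_ofReal.tendsto 1).comp hρt
            have h7 := h6.mul_const (cp y)
            simpa using h7
          · exact Eventually.of_forall (fun n => by rw [mem_closedBall_zero_iff, hnorm]; exact (hρ1 n).le)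
        exact h4.tendsto.comp h5
      · exact Eventually.of_forall (fun n => ⟨_, by rw [mem_ball_zero_iff, hnorm]; exact hρ1 n, rfl⟩)
    have h4 := h3.eventually h2
    obtain ⟨N, hN⟩ := eventually_atTop.1 h4
    simp only [mem_iUnion, mem_iInter]
    exact ⟨N, fun n hn => hN n hn⟩
  have hmono : Monotone (fun N : ℕ => ⋂ n, ⋂ (_ : N ≤ n), U n) := by
    intro a b hab y hy
    simp only [mem_iInter] at hy ⊢
    exact fun n hn => hy n (hab.trans hn)
  have hmeas : volume (⋃ N, ⋂ n, ⋂ (_ : N ≤ n), U n) = ⨆ N, volume (⋂ n, ⋂ (_ : N ≤ n), U n) :=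
    hmono.measure_iUnion
  have hlt : volume A / 2 < ⨆ N : ℕ, volume (⋂ n, ⋂ (_ : N ≤ n), U n) := by
    rw [← hmeas]
    exact (ENNReal.half_lt_self hA0.ne' hAfin.ne).trans_le (measure_mono hsub)
  obtain ⟨N, hN⟩ := lt_iSup_iff.1 hlt
  have hUN : volume A / 2 < volume (U N) :=
    hN.trans_le (measure_mono (iInter_subset_of_subset N (iInter_subset_of_subset le_rfl subset_rfl)))
  obtain ⟨C, hCU, hC, hCv⟩ := (hUo N).exists_lt_isCompact hUN
  have hAr : (volume A).toReal / 2 ≤ (volume C).toReal := by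
    have := ENNReal.toReal_mono (measure_lt_top _ _).ne hCv.le
    rwa [ENNReal.toReal_div] at this
  have hApos : 0 < (volume A).toReal := ENNReal.toReal_pos hA0.ne' hAfin.ne
  have hpi := Real.pi_pos
  have hb := compact_bound hu (hρ0 N) (hρ1 N) hC (hUo N) hCU (fun y hy => le_of_lt hy)
    (η := (volume A).toReal / (32 * π)) (by positivity)
  refine le_trans (ENNReal.ofReal_le_ofReal ?_) hb
  have e1 : (volume A).toReal / (16 * π) = (volume A).toReal / π / 16 := by field_simp
  have e2 : (volume C).toReal / (4 * π) = (volume C).toReal / π / 4 := by field_simp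
  have e3 : (volume A).toReal / (32 * π) = (volume A).toReal / π / 32 := by field_simp
  rw [e1, e2, e3]
  have e4 : (volume A).toReal / π / 2 ≤ (volume C).toReal / π := by
    rw [div_right_comm]
    gcongr
  linarith

end Pool.Agent.Helper694.Ang
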