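import Mathlib
import Pool.Agent.Helper694.AngD

set_option autoImplicit false

open Complex Metric Set Filter Topology MeasureTheory
open scoped ENNReal Real

namespace Pool.Agent.Helper694.Ang

/-- orbit -/
noncomputable def zt (s : ℂ) (n : ℕ) : ℂ := zc (s ^ (2 ^ n))

noncomputable def lam (s : ℂ) : ℕ → ℂ
  | 0 => 1
  | n + 1 => 2 * zt s n * lam s n

noncomputable def Ac (s : ℂ) : ℕ → ℂ
  | 0 => 0
  | n + 1 => Ac s n / (2 * zt s n) + 1 / (2 * zt s n) ^ 2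

lemma ne_of_norm {s : ℂ} (hs : ‖s‖ = 1) : s ≠ 0 := by
  rintro rfl; simp at hs

lemma pow_norm_one {s : ℂ} (hs : ‖s‖ = 1) (n : ℕ) : ‖s ^ n‖ = 1 := by
  rw [norm_pow, hs, one_pow]

lemma zt_norm {s : ℂ} (hs : ‖s‖ = 1) (n : ℕ) : 3 / 4 ≤ ‖zt s n‖ :=
  zc_ge (pow_norm_one hs _).le (pow_ne_zero _ (ne_of_norm hs))

lemma zt_ne {s : ℂ} (hs : ‖s‖ = 1) (n : ℕ) : zt s n ≠ 0 := by
  intro h
  have := zt_norm hs n
  rw [h, norm_zero] at this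
  linarith

lemma zt_succ {s : ℂ} (hs : ‖s‖ = 1) (n : ℕ) : zt s (n + 1) = zt s n ^ 2 + 3 / 16 := by
  unfold zt
  rw [pow_succ, pow_mul, zc_sq (pow_norm_one hs _).le (pow_ne_zero _ (ne_of_norm hs))]

lemma two_zt_norm {s : ℂ} (hs : ‖s‖ = 1) (n : ℕ) : 3 / 2 ≤ ‖2 * zt s n‖ := by
  rw [norm_mul, Complex.norm_two]
  linarith [zt_norm hs n]

lemma lam_norm {s : ℂ} (hs : ‖s‖ = 1) (n : ℕ) : (3 / 2 : ℝ) ^ n ≤ ‖lam s n‖ := by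
  induction n with
  | zero => simp [lam]
  | succ n ih =>
    rw [lam, norm_mul, pow_succ']
    have := two_zt_norm hs n
    gcongr

lemma lam_ne {s : ℂ} (hs : ‖s‖ = 1) (n : ℕ) : lam s n ≠ 0 := by
  intro h
  have h1 := lam_norm hs n
  rw [h, norm_zero] at h1
  have : (0:ℝ) < (3 / 2 : ℝ) ^ n := by positivity
  linarith

lemma Ac_norm {s : ℂ} (hs : ‖s‖ = 1) (n : ℕ) : ‖Ac s n‖ ≤ 4 / 3 := by
  induction n with
  | zero => simp [Ac]; norm_num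
  | succ n ih =>
    rw [Ac]
    have h1 := two_zt_norm hs n
    have h2 : ‖Ac s n / (2 * zt s n)‖ ≤ 8 / 9 := by
      rw [norm_div, div_le_iff₀ (by linarith)]
      nlinarith
    have h3 : ‖1 / (2 * zt s n) ^ 2‖ ≤ 4 / 9 := by
      rw [norm_div, norm_one, norm_pow, div_le_iff₀ (by positivity)]
      nlinarith
    linarith [norm_add_le (Ac s n / (2 * zt s n)) (1 / (2 * zt s n) ^ 2)]

lemma step {ζ A w v : ℂ} (hζ : 3 / 4 ≤ ‖ζ‖) (hA : ‖A‖ ≤ 4 / 3) (hw : ‖2 * ζ * w‖ ≤ 1 / 10)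
    (hE : ‖v - w - A * w ^ 2‖ ≤ 2 * ‖w‖ ^ 3) :
    ‖(2 * ζ * v + v ^ 2) - 2 * ζ * w - (A / (2 * ζ) + 1 / (2 * ζ) ^ 2) * (2 * ζ * w) ^ 2‖
      ≤ 2 * ‖2 * ζ * w‖ ^ 3 := by
  have hζ0 : ζ ≠ 0 := by
    rintro rfl; rw [norm_zero] at hζ; linarith
  set E := v - w - A * w ^ 2 with hEd
  have e1 : (2 * ζ * v + v ^ 2) - 2 * ζ * w - (A / (2 * ζ) + 1 / (2 * ζ) ^ 2) * (2 * ζ * w) ^ 2
      = 2 * ζ * E + 2 * w * (A * w ^ 2 + E) + (A * w ^ 2 + E) ^ 2 := by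
    rw [hEd]
    field_simp
    ring
  rw [e1]
  set a := ‖2 * ζ‖ with ha
  have ha2 : 3 / 2 ≤ a := by
    rw [ha, norm_mul, Complex.norm_two]; linarith
  set t := ‖w‖ with ht
  have ht0 : 0 ≤ t := norm_nonneg _
  have hat : ‖2 * ζ * w‖ = a * t := by rw [norm_mul]
  rw [hat] at hw ⊢
  have ht1 : t ≤ 1 / 15 := by nlinarith
  have hB : ‖A * w ^ 2 + E‖ ≤ 22 / 15 * t ^ 2 := by
    refine (norm_add_le _ _).trans ?_
    rw [norm_mul, norm_pow]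
    have h1 : ‖A‖ * t ^ 2 ≤ 4 / 3 * t ^ 2 := by gcongr
    have h2 : 2 * t ^ 3 ≤ 2 / 15 * t ^ 2 := by nlinarith [sq_nonneg t]
    linarith
  have hB0 : 0 ≤ ‖A * w ^ 2 + E‖ := norm_nonneg _
  have n1 : ‖2 * ζ * E‖ ≤ a * (2 * t ^ 3) := by
    rw [norm_mul]; gcongr
  have n2 : ‖2 * w * (A * w ^ 2 + E)‖ ≤ 2 * t * (22 / 15 * t ^ 2) := by
    rw [norm_mul, norm_mul, Complex.norm_two]
    gcongr
  have n3 : ‖(A * w ^ 2 + E) ^ 2‖ ≤ (22 / 15 * t ^ 2) ^ 2 := by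
    rw [norm_pow]; gcongr
  have n4 : (22 / 15 * t ^ 2) ^ 2 ≤ 484 / 3375 * t ^ 3 := by
    have : t ^ 4 ≤ 1 / 15 * t ^ 3 := by
      have : 0 ≤ t ^ 3 := by positivity
      nlinarith
    nlinarith
  have n5 : ‖2 * ζ * E + 2 * w * (A * w ^ 2 + E) + (A * w ^ 2 + E) ^ 2‖ ≤
      a * (2 * t ^ 3) + 2 * t * (22 / 15 * t ^ 2) + 484 / 3375 * t ^ 3 := by
    have := norm_add₃_le (a := 2 * ζ * E) (b := 2 * w * (A * w ^ 2 + E)) (c := (A * w ^ 2 + E) ^ 2)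
    linarith
  refine n5.trans ?_
  have h3 : 0 ≤ t ^ 3 := by positivity
  have h4 : 15 / 8 ≤ a ^ 3 - a := by
    nlinarith [mul_nonneg (sub_nonneg.2 ha2) (by positivity : 0 ≤ a ^ 2 + 3 / 2 * a + 5 / 4)]
  have h5 : 15 / 8 * t ^ 3 ≤ (a ^ 3 - a) * t ^ 3 := by gcongr
  nlinarith

lemma expand {s : ℂ} (hs : ‖s‖ = 1) {δ : ℂ} (N : ℕ) (h : ‖lam s N * δ‖ ≤ 1 / 10) :
    ‖qf^[N] (zt s 0 + δ) - zt s N - lam s N * δ - Ac s N * (lam s N * δ) ^ 2‖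
      ≤ 2 * ‖lam s N * δ‖ ^ 3 := by
  induction N with
  | zero => simp [lam, Ac]
  | succ N ih =>
    have e1 : lam s (N + 1) * δ = 2 * zt s N * (lam s N * δ) := by rw [lam]; ring
    rw [e1] at h ⊢
    have h1 : ‖lam s N * δ‖ ≤ 1 / 10 := by
      rw [norm_mul] at h
      have := two_zt_norm hs N
      have h2 : 0 ≤ ‖lam s N * δ‖ := norm_nonneg _
      nlinarith
    have h2 := ih h1
    set v := qf^[N] (zt s 0 + δ) - zt s N with hv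
    have h3 := step (zt_norm hs N) (Ac_norm hs N) h h2
    rw [Function.iterate_succ_apply']
    have e2 : qf^[N] (zt s 0 + δ) = zt s N + v := by rw [hv]; ring
    rw [e2, qf, zt_succ hs, Ac]
    have e3 : (zt s N + v) ^ 2 + 3 / 16 - (zt s N ^ 2 + 3 / 16) = 2 * zt s N * v + v ^ 2 := by ring
    rw [e3]
    exact h3

lemma key_ineq {k : ℂ} (hk : ‖k‖ ≤ 1 / 11) (hx : k.re ≤ 1 / 10 * k.im ^ 2) :
    ‖3 / 4 + k + 4 / 3 * k ^ 2‖ ≤ 3 / 4 - 46 / 100 * ‖k‖ ^ 2 := by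
  have hq : ‖k‖ ^ 2 = k.re ^ 2 + k.im ^ 2 := by
    rw [← Complex.normSq_eq_norm_sq, Complex.normSq_apply]; ring
  have hq1 : k.re ^ 2 + k.im ^ 2 ≤ 1 / 121 := by
    rw [← hq]
    have : 0 ≤ ‖k‖ := norm_nonneg _
    nlinarith
  have h0 : 0 ≤ 3 / 4 - 46 / 100 * ‖k‖ ^ 2 := by rw [hq]; linarith
  apply abs_le_of_sq_le_sq' _ h0 |>.2
  have hn : ‖3 / 4 + k + 4 / 3 * k ^ 2‖ ^ 2 =
      9 / 16 + 3 / 2 * k.re + 3 * k.re ^ 2 - k.im ^ 2 + 8 / 3 * k.re * (k.re ^ 2 + k.im ^ 2)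
        + 16 / 9 * (k.re ^ 2 + k.im ^ 2) ^ 2 := by
    rw [← Complex.normSq_eq_norm_sq, Complex.normSq_apply]
    have r1 : (3 / 4 + k + 4 / 3 * k ^ 2 : ℂ).re = 3 / 4 + k.re + 4 / 3 * (k.re ^ 2 - k.im ^ 2) := by
      simp [pow_two]
    have r2 : (3 / 4 + k + 4 / 3 * k ^ 2 : ℂ).im = k.im + 8 / 3 * k.re * k.im := by
      simp [pow_two]
      norm_num
      ring
    rw [r1, r2]
    ring
  rw [hn, hq]
  set x := k.re with hxd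
  set y := k.im with hyd
  have hx2 : x ≤ 1 / 11 := by nlinarith [sq_nonneg y]
  have hx3 : - (1 / 11) ≤ x := by nlinarith [sq_nonneg y]
  have hq0 : 0 ≤ x ^ 2 + y ^ 2 := by positivity
  have hqq : (x ^ 2 + y ^ 2) ^ 2 ≤ 1 / 121 * (x ^ 2 + y ^ 2) := by nlinarith
  rcases le_or_gt x 0 with hx0 | hx0
  · have h1 : 8 / 3 * x * (x ^ 2 + y ^ 2) ≤ 0 := by nlinarith
    have h2 : x ^ 2 ≤ - (1 / 11) * x := by nlinarith
    nlinarith [sq_nonneg (x ^ 2 + y ^ 2)]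
  · have h1 : 8 / 3 * x * (x ^ 2 + y ^ 2) ≤ 8 / 3 * (1 / 121) * x := by nlinarith
    have h2 : x ^ 2 ≤ 1 / 1210 * x := by nlinarith [sq_nonneg y]
    nlinarith [sq_nonneg (x ^ 2 + y ^ 2)]

/-- points of the disc around `Phi s` outside `Om` -/
lemma out {s : ℂ} (hs : ‖s‖ = 1) {N : ℕ} (hA : ‖Ac s N - 4 / 3‖ ≤ 1 / 10)
    (hz : ‖zt s N - 3 / 4‖ ≤ 1 / 10 ^ 11) (hτ : ‖Phi s / lam s N‖ ≤ 1 / 100)
    {k : ℂ} (hk0 : 1 / 10 ^ 5 ≤ ‖k‖) (hk : ‖k‖ ≤ 1 / 11) (hx : k.re ≤ 1 / 10 * k.im ^ 2) :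
    Phi s + (-(Phi s ^ 2 / lam s N)) * k ∉ Om := by
  have hPhi : Phi s ≠ 0 := Phi_ne hs.le (ne_of_norm hs)
  have hlam := lam_ne hs N
  set τ := Phi s / lam s N with hτd
  have hkn : 0 ≤ ‖k‖ := norm_nonneg _
  have hτn : 0 ≤ ‖τ‖ := norm_nonneg _
  have hτk : ‖τ * k‖ ≤ 1 / 1100 := by
    rw [norm_mul]
    calc ‖τ‖ * ‖k‖ ≤ 1 / 100 * (1 / 11) := by gcongr
      _ = 1 / 1100 := by norm_num
  have hden : 1099 / 1100 ≤ ‖1 - τ * k‖ := by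
    have := norm_sub_norm_le (1 : ℂ) (τ * k)
    rw [norm_one] at this
    linarith
  have hden0 : 1 - τ * k ≠ 0 := by
    intro h
    rw [h, norm_zero] at hden
    linarith
  set w := k / (1 - τ * k) with hw
  have hwk : w - k = τ * k ^ 2 / (1 - τ * k) := by
    rw [hw, eq_div_iff hden0, sub_mul, div_mul_cancel₀ _ hden0]; ring
  have hwkn : ‖w - k‖ ≤ 11 / 1000 * ‖k‖ ^ 2 := by
    rw [hwk, norm_div, norm_mul, norm_pow, div_le_iff₀ (by linarith)]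
    have h1 : ‖τ‖ * ‖k‖ ^ 2 ≤ 1 / 100 * ‖k‖ ^ 2 := by gcongr
    nlinarith [sq_nonneg ‖k‖]
  have hk2 : ‖k‖ ^ 2 ≤ 1 / 11 * ‖k‖ := by nlinarith
  have hwkn' : ‖w - k‖ ≤ 1 / 1000 * ‖k‖ := by linarith
  have hwn : ‖w‖ ≤ 1001 / 1000 * ‖k‖ := by
    have := norm_add_le (w - k) k
    rw [sub_add_cancel] at this
    linarith
  have hwpk : ‖w + k‖ ≤ 2001 / 1000 * ‖k‖ := by
    have := norm_add_le w k
    linarith
  have hx0 : Phi s + (-(Phi s ^ 2 / lam s N)) * k = Phi s * (1 - τ * k) := by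
    rw [hτd]; field_simp; ring
  rw [hx0]
  apply not_mem_Om (mul_ne_zero hPhi hden0) N
  have hinv : (Phi s * (1 - τ * k))⁻¹ = zt s 0 + w / lam s N := by
    have e1 : zt s 0 = (Phi s)⁻¹ := by rw [Phi_inv]; simp [zt]
    rw [e1, hw, mul_inv]
    have e2 : (1 - τ * k) ≠ 0 := hden0
    have e3 : (Phi s)⁻¹ * τ = (lam s N)⁻¹ := by rw [hτd]; field_simp
    have e4 : k / (1 - τ * k) / lam s N = (lam s N)⁻¹ * k * (1 - τ * k)⁻¹ := by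
      field_simp
    rw [e4, ← e3]
    have e5 : (1 - τ * k) * (1 - τ * k)⁻¹ = 1 := mul_inv_cancel₀ e2
    linear_combination ((Phi s)⁻¹) * e5
  rw [hinv]
  have hlw : lam s N * (w / lam s N) = w := by field_simp
  have hw10 : ‖w‖ ≤ 1 / 10 := by linarith
  have hex := expand hs (δ := w / lam s N) N (by rw [hlw]; exact hw10)
  rw [hlw] at hex
  set E := qf^[N] (zt s 0 + w / lam s N) - zt s N - w - Ac s N * w ^ 2 with hE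
  have hval : qf^[N] (zt s 0 + w / lam s N) = (3 / 4 + k + 4 / 3 * k ^ 2) +
      ((zt s N - 3 / 4) + (w - k) + Ac s N * ((w - k) * (w + k)) + (Ac s N - 4 / 3) * k ^ 2 + E) := by
    rw [hE]; ring
  rw [hval]
  have hkey := key_ineq hk hx
  have n0 : ‖zt s N - 3 / 4‖ ≤ 1 / 10 * ‖k‖ ^ 2 := by
    have : (1 / 10 ^ 5 : ℝ) ^ 2 ≤ ‖k‖ ^ 2 := by gcongr
    refine hz.trans ?_
    calc (1 / 10 ^ 11 : ℝ) = 1 / 10 * (1 / 10 ^ 5) ^ 2 := by norm_num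
      _ ≤ 1 / 10 * ‖k‖ ^ 2 := by gcongr
  have n1 : ‖Ac s N * ((w - k) * (w + k))‖ ≤ 4 / 3 * (11 / 1000 * ‖k‖ ^ 2 * (2001 / 1000 * ‖k‖)) := by
    rw [norm_mul, norm_mul]
    have := Ac_norm hs N
    gcongr
  have n1' : 4 / 3 * (11 / 1000 * ‖k‖ ^ 2 * (2001 / 1000 * ‖k‖)) ≤ 3 / 1000 * ‖k‖ ^ 2 := by
    have : ‖k‖ ^ 2 * ‖k‖ ≤ ‖k‖ ^ 2 * (1 / 11) := by gcongr
    nlinarith [sq_nonneg ‖k‖]
  have n2 : ‖(Ac s N - 4 / 3) * k ^ 2‖ ≤ 1 / 10 * ‖k‖ ^ 2 := by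
    rw [norm_mul, norm_pow]
    gcongr
  have n3 : ‖E‖ ≤ 184 / 1000 * ‖k‖ ^ 2 := by
    refine hex.trans ?_
    have h1 : ‖w‖ ^ 3 ≤ (1001 / 1000 * ‖k‖) ^ 3 := by gcongr
    have h2 : ‖k‖ ^ 3 ≤ 1 / 11 * ‖k‖ ^ 2 := by nlinarith [sq_nonneg ‖k‖]
    have h3 : (1001 / 1000 * ‖k‖) ^ 3 = (1001 / 1000) ^ 3 * ‖k‖ ^ 3 := by ring
    rw [h3] at h1
    nlinarith [sq_nonneg ‖k‖]
  set e := (zt s N - 3 / 4) + (w - k) + Ac s N * ((w - k) * (w + k)) + (Ac s N - 4 / 3) * k ^ 2 + E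
    with he
  have hen : ‖e‖ ≤ ‖zt s N - 3 / 4‖ + ‖w - k‖ + ‖Ac s N * ((w - k) * (w + k))‖ +
      ‖(Ac s N - 4 / 3) * k ^ 2‖ + ‖E‖ := by
    rw [he]
    refine (norm_add_le _ _).trans ?_
    gcongr
    refine (norm_add_le _ _).trans ?_
    gcongr
    refine (norm_add_le _ _).trans ?_
    gcongr
    exact norm_add_le _ _
  have hfin := norm_add_le (3 / 4 + k + 4 / 3 * k ^ 2) e
  have : 0 ≤ ‖k‖ ^ 2 := sq_nonneg _
  linarith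

/-- contraction towards `4/3` near the fixed point -/
lemma Ac_step {s : ℂ} (hs : ‖s‖ = 1) (n : ℕ) {ε : ℝ} (hz : ‖zt s n - 3 / 4‖ ≤ ε) :
    ‖Ac s (n + 1) - 4 / 3‖ ≤ 2 / 3 * ‖Ac s n - 4 / 3‖ + 3 * ε := by
  have h1 := two_zt_norm hs n
  have h0 : (2 * zt s n) ≠ 0 := by
    intro h; rw [h, norm_zero] at h1; linarith
  have h00 : zt s n ≠ 0 := zt_ne hs n
  have hε : 0 ≤ ε := (norm_nonneg _).trans hz
  have e1 : Ac s (n + 1) - 4 / 3 = (Ac s n - 4 / 3) / (2 * zt s n)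
      + (4 / 3 + (1 / (2 * zt s n) + 2 / 3)) * (1 / (2 * zt s n) - 2 / 3) := by
    rw [Ac]; field_simp; ring
  have e2 : 1 / (2 * zt s n) - 2 / 3 = -(4 / 3) * (zt s n - 3 / 4) / (2 * zt s n) := by
    field_simp; ring
  have n1 : ‖(Ac s n - 4 / 3) / (2 * zt s n)‖ ≤ 2 / 3 * ‖Ac s n - 4 / 3‖ := by
    rw [norm_div, div_le_iff₀ (by linarith)]
    nlinarith [norm_nonneg (Ac s n - 4 / 3)]
  have n2 : ‖1 / (2 * zt s n) - 2 / 3‖ ≤ 8 / 9 * ε := by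
    rw [e2, norm_div, norm_mul, norm_neg, div_le_iff₀ (by linarith)]
    have : ‖(4 / 3 : ℂ)‖ = 4 / 3 := by norm_num
    rw [this]
    nlinarith [norm_nonneg (zt s n - 3 / 4)]
  have n3 : ‖(4 / 3 : ℂ) + (1 / (2 * zt s n) + 2 / 3)‖ ≤ 8 / 3 := by
    have a1 : ‖1 / (2 * zt s n)‖ ≤ 2 / 3 := by
      rw [norm_div, norm_one, div_le_iff₀ (by linarith)]; linarith
    have a2 : ‖(4 / 3 : ℂ)‖ = 4 / 3 := by norm_num
    have a3 : ‖(2 / 3 : ℂ)‖ = 2 / 3 := by norm_num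
    have := norm_add_le (4 / 3 : ℂ) (1 / (2 * zt s n) + 2 / 3)
    have := norm_add_le (1 / (2 * zt s n)) (2 / 3 : ℂ)
    linarith
  rw [e1]
  refine (norm_add_le _ _).trans ?_
  rw [norm_mul (4 / 3 + (1 / (2 * zt s n) + 2 / 3) : ℂ)]
  have n4 : ‖(4 / 3 : ℂ) + (1 / (2 * zt s n) + 2 / 3)‖ * ‖1 / (2 * zt s n) - 2 / 3‖ ≤ 8 / 3 * (8 / 9 * ε) := by
    gcongr
  linarith

lemma Ac_near {s : ℂ} (hs : ‖s‖ = 1) (n : ℕ) {ε : ℝ} (hε : 0 ≤ ε) (m : ℕ)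
    (hz : ∀ j < m, ‖zt s (n + j) - 3 / 4‖ ≤ ε) :
    ‖Ac s (n + m) - 4 / 3‖ ≤ (2 / 3) ^ m * (8 / 3) + 9 * ε := by
  induction m with
  | zero =>
    have h1 := Ac_norm hs n
    have h2 := norm_sub_le (Ac s n) (4 / 3)
    have a2 : ‖(4 / 3 : ℂ)‖ = 4 / 3 := by norm_num
    simp only [add_zero, pow_zero, one_mul]
    linarith
  | succ m ih =>
    have h1 := ih (fun j hj => hz j (by omega))
    have h2 := Ac_step hs (n + m) (hz m (by omega))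
    rw [← add_assoc, pow_succ]
    linarith

end Pool.Agent.Helper694.Ang
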