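import Mathlib
import Pool.Agent.Helper694.AngE

set_option autoImplicit false

open Complex Metric Set Filter Topology MeasureTheory
open scoped ENNReal Real

namespace Pool.Agent.Helper694.Ang

lemma arcs {Ω : Set ℂ} (hΩ : IsOpen Ω) (z : ℂ) {a b : ℝ → ℝ} (hm : Measurable (fun r => b r - a r))
    (h : ∀ r : ℝ, 0 < r → a r ≤ b r ∧ b r - a r ≤ 2 * π ∧
      ∀ t ∈ Set.Ioo (a r) (b r), z + (r:ℂ) * Complex.exp ((t:ℂ) * Complex.I) ∈ Ω) {R : ℝ} (hR : 0 < R) :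
    ENNReal.ofReal (∫ r in (0:ℝ)..R, (b r - a r) * r) ≤ volume (Ω ∩ ball z R) := by
  have hmeas : MeasurableSet (Ω ∩ ball z R) := (hΩ.inter isOpen_ball).measurableSet
  set F : ℂ → ℝ≥0∞ := (Ω ∩ ball z R).indicator 1 with hF
  have hFm : Measurable F := measurable_one.indicator hmeas
  have h1 : volume (Ω ∩ ball z R) = ∫⁻ w : ℂ, F (z + w) := by
    rw [lintegral_add_left_eq_self F z, hF, lintegral_indicator_one hmeas]
  rw [h1, ← Complex.lintegral_comp_polarCoord_symm]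
  have h2 : (polarCoord.target : Set (ℝ × ℝ)) = Set.Ioi (0 : ℝ) ×ˢ Set.Ioo (-π) π := rfl
  rw [h2, Measure.volume_eq_prod, ← Measure.prod_restrict, lintegral_prod]
  swap
  · apply Measurable.aemeasurable
    simp only [Complex.polarCoord_symm_apply, smul_eq_mul]
    exact (by fun_prop : Measurable fun p : ℝ × ℝ => ENNReal.ofReal p.1).mul
      (hFm.comp (by fun_prop))
  have h3 : ENNReal.ofReal (∫ r in (0:ℝ)..R, (b r - a r) * r) ≤
      ∫⁻ r in Ioo 0 R, ENNReal.ofReal ((b r - a r) * r) := by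
    rw [intervalIntegral.integral_of_le hR.le, integral_Ioc_eq_integral_Ioo]
    rw [integral_eq_lintegral_of_nonneg_ae]
    · exact ENNReal.ofReal_toReal_le
    · filter_upwards [ae_restrict_mem measurableSet_Ioo] with r hr
      exact mul_nonneg (sub_nonneg.2 (h r hr.1).1) hr.1.le
    · exact (hm.mul measurable_id).aestronglyMeasurable
  refine h3.trans ?_
  refine le_trans ?_ (lintegral_mono_set (s := Ioo 0 R) (t := Ioi 0) Ioo_subset_Ioi_self)
  apply setLIntegral_mono' measurableSet_Ioo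
  intro r hr
  obtain ⟨hab, hab2, hin⟩ := h r hr.1
  simp only [Complex.polarCoord_symm_apply]
  set g : AddCircle (2 * π) → ℝ≥0∞ := fun y => ENNReal.ofReal r * F (z + r * cp y) with hg
  have e1 : ∀ θ : ℝ, ENNReal.ofReal r • F (z + (r:ℂ) * ((Real.cos θ : ℂ) + (Real.sin θ : ℂ) * I)) = g θ := by
    intro θ
    simp only [hg, smul_eq_mul]
    rw [cp_coe, Complex.exp_mul_I]
    simp
  simp only [e1]
  have e2 : ∫⁻ θ in Ioo (-π) π, g θ = ∫⁻ θ in Ioc (a r) (a r + 2 * π), g θ := by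
    rw [AddCircle.lintegral_preimage (2 * π) (a r) g, ← AddCircle.lintegral_preimage (2 * π) (-π) g]
    have : -π + 2 * π = π := by ring
    rw [this]
    exact setLIntegral_congr Ioo_ae_eq_Ioc
  rw [e2]
  have e3 : Ioo (a r) (b r) ⊆ Ioc (a r) (a r + 2 * π) := by
    intro t ht
    exact ⟨ht.1, by linarith [ht.2]⟩
  refine le_trans ?_ (lintegral_mono_set e3)
  have e4 : ∀ t ∈ Ioo (a r) (b r), ENNReal.ofReal r ≤ g t := by
    intro t ht
    simp only [hg]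
    rw [cp_coe]
    have h5 : z + (r:ℂ) * exp (t * I) ∈ Ω ∩ ball z R := by
      refine ⟨hin t ht, ?_⟩
      rw [mem_ball, dist_eq_norm, add_sub_cancel_left, norm_mul, Complex.norm_exp_ofReal_mul_I,
        mul_one, Complex.norm_real, Real.norm_of_nonneg hr.1.le]
      exact hr.2
    rw [hF, indicator_of_mem h5]
    simp
  calc ENNReal.ofReal ((b r - a r) * r) = ∫⁻ _ in Ioo (a r) (b r), ENNReal.ofReal r := by
        rw [setLIntegral_const, Real.volume_Ioo, mul_comm, ENNReal.ofReal_mul hr.1.le]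
    _ ≤ _ := setLIntegral_mono' measurableSet_Ioo e4

/-- the set of allowed `k` -/
def Sk : Set ℂ := {k | 1 / 10 ^ 5 ≤ ‖k‖ ∧ ‖k‖ ≤ 1 / 11 ∧ k.re ≤ 1 / 10 * k.im ^ 2}

lemma vol_ball (c : ℂ) {r : ℝ} (hr : 0 ≤ r) : volume.real (ball c r) = π * r ^ 2 := by
  rw [Measure.real, Complex.volume_ball, ENNReal.toReal_mul, ENNReal.toReal_pow,
    ENNReal.toReal_ofReal hr]
  simp [mul_comm]

lemma fin_vol {s : Set ℂ} (h : s ⊆ ball 0 1) : volume s ≠ ⊤ :=
  ((measure_mono h).trans_lt measure_ball_lt_top).ne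

lemma half_vol : π / 242 ≤ volume.real ({k : ℂ | k.re ≤ 0} ∩ ball 0 (1 / 11)) := by
  set H := {k : ℂ | k.re ≤ 0} ∩ ball 0 (1 / 11) with hH
  have h1 : ball (0:ℂ) (1 / 11) ⊆ H ∪ -H := by
    intro k hk
    rcases le_total k.re 0 with h | h
    · exact Or.inl ⟨h, hk⟩
    · right
      rw [Set.mem_neg]
      refine ⟨by simpa using h, ?_⟩
      rw [mem_ball_zero_iff, norm_neg]
      simpa using hk
  have h2 : volume.real (-H) = volume.real H := by
    simp only [Measure.real, Measure.measure_neg]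
  have hfin : volume (H ∪ -H) ≠ ⊤ := by
    apply fin_vol
    intro k hk
    rcases hk with hk | hk
    · exact ball_subset_ball (by norm_num) hk.2
    · have := hk.2
      rw [mem_ball_zero_iff, norm_neg] at this
      rw [mem_ball_zero_iff]
      linarith
  have h3 := measureReal_mono h1 hfin
  have h4 := measureReal_union_le (μ := volume) H (-H)
  rw [vol_ball 0 (by norm_num : (0:ℝ) ≤ 1 / 11)] at h3
  rw [h2] at h4
  linarith

lemma mid_norm {k : ℂ} (hk : k ∈ ball (⟨2 / 10 ^ 4, 1 / 12⟩ : ℂ) (1 / 10 ^ 4)) :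
    1 / 10 ^ 4 < k.re ∧ k.re < 3 / 10 ^ 4 ∧ 1 / 12 - 1 / 10 ^ 4 < k.im ∧ ‖k‖ < 1 / 11 := by
  rw [mem_ball, dist_eq_norm] at hk
  have h1 := (Complex.abs_re_le_norm _).trans_lt hk
  have h2 := (Complex.abs_im_le_norm _).trans_lt hk
  rw [abs_lt] at h1 h2
  simp only [sub_re, sub_im] at h1 h2
  have h3 := norm_add_le (k - (⟨2 / 10 ^ 4, 1 / 12⟩ : ℂ)) (⟨2 / 10 ^ 4, 1 / 12⟩ : ℂ)
  rw [sub_add_cancel] at h3
  have h4 := Complex.norm_le_abs_re_add_abs_im (⟨2 / 10 ^ 4, 1 / 12⟩ : ℂ)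
  simp only at h4
  rw [abs_of_pos (by norm_num), abs_of_pos (by norm_num)] at h4
  refine ⟨by linarith [h1.1], by linarith [h1.2], by linarith [h2.1], ?_⟩
  have h5 : (2 / 10 ^ 4 : ℝ) + 1 / 12 + 1 / 10 ^ 4 < 1 / 11 := by norm_num
  linarith

lemma vol_Sk : π / 242 + π / (121 * 10 ^ 7) ≤ volume.real (Sk ∩ ball 0 (1 / 11)) := by
  set H := {k : ℂ | k.re ≤ 0} ∩ ball 0 (1 / 11) with hH
  have hHm : MeasurableSet H :=
    (measurableSet_le Complex.measurable_re measurable_const).inter isOpen_ball.measurableSet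
  set S1 := H \ ball 0 (1 / 10 ^ 5) with hS1
  set S2 := ball (⟨2 / 10 ^ 4, 1 / 12⟩ : ℂ) (1 / 10 ^ 4) with hS2
  have hsub : S1 ∪ S2 ⊆ Sk ∩ ball 0 (1 / 11) := by
    rintro k (hk | hk)
    · have h1 := hk.1.2
      refine ⟨⟨?_, (mem_ball_zero_iff.1 h1).le, ?_⟩, h1⟩
      · have := hk.2
        rw [mem_ball_zero_iff, not_lt] at this
        exact this
      · have : k.re ≤ 0 := hk.1.1
        nlinarith [sq_nonneg k.im]
    · obtain ⟨h1, h2, h3, h4⟩ := mid_norm hk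
      refine ⟨⟨?_, h4.le, ?_⟩, mem_ball_zero_iff.2 h4⟩
      · have := Complex.im_le_norm k
        have h5 : (1 / 10 ^ 5 : ℝ) ≤ 1 / 12 - 1 / 10 ^ 4 := by norm_num
        linarith
      · have h5 : (1 / 12 - 1 / 10 ^ 4 : ℝ) ^ 2 ≤ k.im ^ 2 := by
          apply pow_le_pow_left₀ (by norm_num) h3.le
        have h6 : (3 / 10 ^ 4 : ℝ) ≤ 1 / 10 * (1 / 12 - 1 / 10 ^ 4 : ℝ) ^ 2 := by norm_num
        linarith
  have hdisj : Disjoint S1 S2 := by
    rw [Set.disjoint_left]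
    intro k hk1 hk2
    have h1 : k.re ≤ 0 := hk1.1.1
    have h2 := (mid_norm hk2).1
    have h3 : (0:ℝ) < 1 / 10 ^ 4 := by norm_num
    linarith
  have hb : Sk ∩ ball 0 (1 / 11) ⊆ ball 0 1 :=
    inter_subset_right.trans (ball_subset_ball (by norm_num))
  have h3 := measureReal_mono hsub (fin_vol hb)
  rw [measureReal_union hdisj isOpen_ball.measurableSet
    (fin_vol (subset_union_left.trans (hsub.trans hb)))
    (fin_vol (subset_union_right.trans (hsub.trans hb)))] at h3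
  have h4 : volume.real S2 = π * (1 / 10 ^ 4) ^ 2 := vol_ball _ (by norm_num)
  have h5 : volume.real H ≤ volume.real S1 + π * (1 / 10 ^ 5) ^ 2 := by
    rw [← vol_ball 0 (by norm_num : (0:ℝ) ≤ 1 / 10 ^ 5)]
    have h6 : H ⊆ S1 ∪ ball 0 (1 / 10 ^ 5) := by
      intro k hk
      by_cases hk2 : k ∈ ball (0:ℂ) (1 / 10 ^ 5)
      · exact Or.inr hk2
      · exact Or.inl ⟨hk, hk2⟩
    refine (measureReal_mono h6 ?_).trans (measureReal_union_le _ _)
    apply fin_vol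
    apply union_subset
    · exact (subset_union_left.trans (hsub.trans hb))
    · exact ball_subset_ball (by norm_num)
  have h6 := half_vol
  have hpi := Real.pi_pos
  have h7 : π * (1 / 10 ^ 4) ^ 2 = π * (1 / 10 ^ 8) := by norm_num
  have h8 : π * (1 / 10 ^ 5) ^ 2 = π * (1 / 10 ^ 10) := by norm_num
  have h9 : π / (121 * 10 ^ 7) + π * (1 / 10 ^ 10) ≤ π * (1 / 10 ^ 8) := by
    have : π / (121 * 10 ^ 7) + π * (1 / 10 ^ 10) = π * (1 / (121 * 10 ^ 7) + 1 / 10 ^ 10) := by ring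
    rw [this]
    apply mul_le_mul_of_nonneg_left _ hpi.le
    norm_num
  linarith

lemma area {Ω : Set ℂ} {ζ κ : ℂ} (hκ : κ ≠ 0) (hout : ∀ k ∈ Sk, ζ + κ * k ∉ Ω) :
    volume (Ω ∩ ball ζ (‖κ‖ / 11)) ≤ ENNReal.ofReal ((1 / 2 - 1 / 10 ^ 7) * (π * (‖κ‖ / 11) ^ 2)) := by
  have hκ0 : 0 < ‖κ‖ := norm_pos_iff.2 hκ
  set M := ball (0:ℂ) (1 / 11) \ (Sk ∩ ball 0 (1 / 11)) with hM
  have h1 : Ω ∩ ball ζ (‖κ‖ / 11) ⊆ (fun k => ζ + k) '' ((Algebra.lmul ℝ ℂ κ) '' M) := by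
    rintro x ⟨hx1, hx2⟩
    refine ⟨x - ζ, ⟨(x - ζ) / κ, ?_, ?_⟩, by ring⟩
    · rw [mem_ball, dist_eq_norm] at hx2
      refine ⟨?_, ?_⟩
      · rw [mem_ball_zero_iff, norm_div, div_lt_iff₀ hκ0]
        linarith
      · rintro ⟨h3, -⟩
        apply hout _ h3
        rw [mul_div_cancel₀ _ hκ]
        simpa using hx1
    · simp only [Algebra.coe_lmul_eq_mul, LinearMap.mul_apply_apply]
      rw [mul_div_cancel₀ _ hκ]
  refine (measure_mono h1).trans ?_
  have h2 : volume ((fun k => ζ + k) '' ((Algebra.lmul ℝ ℂ κ) '' M)) = volume ((Algebra.lmul ℝ ℂ κ) '' M) := by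
    rw [image_add_left, measure_preimage_add]
  rw [h2, Measure.addHaar_image_linearMap]
  have h3 : LinearMap.det (Algebra.lmul ℝ ℂ κ) = ‖κ‖ ^ 2 := by
    have := Algebra.norm_complex_apply κ
    rw [Algebra.norm_apply] at this
    rw [this, Complex.normSq_eq_norm_sq]
  rw [h3, abs_of_nonneg (by positivity)]
  have hMfin : volume M ≠ ⊤ := fin_vol (sdiff_subset.trans (ball_subset_ball (by norm_num)))
  have hSm : MeasurableSet (Sk ∩ ball 0 (1 / 11)) := by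
    apply MeasurableSet.inter _ isOpen_ball.measurableSet
    have m1 : MeasurableSet {k : ℂ | 1 / 10 ^ 5 ≤ ‖k‖} := measurableSet_le measurable_const measurable_norm
    have m2 : MeasurableSet {k : ℂ | ‖k‖ ≤ 1 / 11} := measurableSet_le measurable_norm measurable_const
    have m3 : MeasurableSet {k : ℂ | k.re ≤ 1 / 10 * k.im ^ 2} :=
      measurableSet_le Complex.measurable_re (by fun_prop)
    exact m1.inter (m2.inter m3)
  have h4 : volume.real M = volume.real (ball (0:ℂ) (1 / 11)) - volume.real (Sk ∩ ball 0 (1 / 11)) := by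
    rw [hM, measureReal_sdiff inter_subset_right hSm]
  have h5 : volume.real M ≤ (1 / 2 - 1 / 10 ^ 7) * (π / 121) := by
    rw [h4, vol_ball 0 (by norm_num : (0:ℝ) ≤ 1 / 11)]
    have := vol_Sk
    have e1 : (1 / 2 - 1 / 10 ^ 7) * (π / 121) = π * (1 / 11) ^ 2 - (π / 242 + π / (121 * 10 ^ 7)) := by ring
    rw [e1]
    linarith
  rw [← ENNReal.ofReal_toReal hMfin, ← ENNReal.ofReal_mul (by positivity)]
  apply ENNReal.ofReal_le_ofReal
  calc ‖κ‖ ^ 2 * (volume M).toReal ≤ ‖κ‖ ^ 2 * ((1 / 2 - 1 / 10 ^ 7) * (π / 121)) := by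
        apply mul_le_mul_of_nonneg_left h5 (by positivity)
    _ = (1 / 2 - 1 / 10 ^ 7) * (π * (‖κ‖ / 11) ^ 2) := by ring

lemma no_limit {Ω : Set ℂ} (hΩ : IsOpen Ω) {z : ℂ} {a b : ℝ → ℝ} (hm : Measurable (fun r => b r - a r))
    (h : ∀ r : ℝ, 0 < r → a r ≤ b r ∧ b r - a r ≤ 2 * π ∧
      ∀ t ∈ Set.Ioo (a r) (b r), z + (r:ℂ) * Complex.exp ((t:ℂ) * Complex.I) ∈ Ω)
    (hlim : Filter.Tendsto (fun R : ℝ => (π * R ^ 2)⁻¹ * ∫ r in (0:ℝ)..R, (b r - a r) * r)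
          (nhdsWithin 0 (Set.Ioi 0)) (nhds (1/2)))
    (hk : ∀ ρ : ℝ, 0 < ρ → ∃ κ : ℂ, κ ≠ 0 ∧ ‖κ‖ < ρ ∧ ∀ k ∈ Sk, z + κ * k ∉ Ω) : False := by
  have h1 : ∀ᶠ R in nhdsWithin (0:ℝ) (Set.Ioi 0), (1 / 2 - 1 / 10 ^ 7 : ℝ) <
      (π * R ^ 2)⁻¹ * ∫ r in (0:ℝ)..R, (b r - a r) * r :=
    hlim.eventually_const_lt (by norm_num)
  rw [eventually_nhdsWithin_iff, Metric.eventually_nhds_iff] at h1
  obtain ⟨ρ, hρ, h2⟩ := h1
  obtain ⟨κ, hκ, hκρ, hout⟩ := hk ρ hρ
  have hκ0 : 0 < ‖κ‖ := norm_pos_iff.2 hκ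
  have h3 := h2 (y := ‖κ‖ / 11) (by
    rw [dist_zero_right, Real.norm_of_nonneg (by positivity)]; linarith) (by
    show 0 < ‖κ‖ / 11
    positivity)
  have h4 := (arcs hΩ z hm h (R := ‖κ‖ / 11) (by positivity)).trans (area hκ hout)
  rw [ENNReal.ofReal_le_ofReal_iff (by
    have := Real.pi_pos
    positivity)] at h4
  have hpos : 0 < π * (‖κ‖ / 11) ^ 2 := by positivity
  rw [inv_mul_eq_div, lt_div_iff₀ hpos] at h3
  linarith

end Pool.Agent.Helper694.Ang
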