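import Mathlib
import Pool.Agent.Helper694.AngF

set_option autoImplicit false

open Complex Metric Set Filter Topology MeasureTheory
open scoped ENNReal Real

namespace Pool.Agent.Helper694.Ang

/-- the open set of circle points whose first eleven iterates stay near the fixed point -/
def A0 : Set (AddCircle (2 * π)) := {y | ∀ j ∈ Finset.range 11, ‖zc (cp y ^ (2 ^ j)) - 3 / 4‖ < 1 / 10 ^ 11}

lemma A0_open : IsOpen A0 := by
  unfold A0
  simp only [ofPred_forall]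
  apply isOpen_biInter_finset
  intro j _
  apply isOpen_lt _ continuous_const
  apply Continuous.norm
  apply Continuous.sub _ continuous_const
  unfold zc
  apply Continuous.div
  · apply G_cont.comp_continuous
    · exact cp_cont.pow _
    · intro y
      rw [mem_closedBall_zero_iff, norm_pow, cp_norm, one_pow]
  · exact cp_cont.pow _
  · intro y
    exact pow_ne_zero _ (ne_of_norm (cp_norm y))

lemma cp_zero : cp 0 = 1 := by
  have := cp_coe 0
  simpa using this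

lemma A0_zero : (0 : AddCircle (2 * π)) ∈ A0 := by
  intro j _
  rw [cp_zero, one_pow]
  simp [zc, G_one]

lemma A0_pos : 0 < volume A0 := A0_open.measure_pos volume ⟨0, A0_zero⟩

/-- doubling map -/
noncomputable def dbl : AddCircle (2 * π) → AddCircle (2 * π) := fun y => 2 • y

lemma cp_dbl (n : ℕ) (y : AddCircle (2 * π)) : cp (dbl^[n] y) = cp y ^ (2 ^ n) := by
  induction n with
  | zero => simp
  | succ n ih =>
    rw [Function.iterate_succ_apply', dbl, cp_nsmul, ih, ← pow_mul, ← pow_succ]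

def A1 : Set (AddCircle (2 * π)) := {y | ∃ᶠ n in atTop, dbl^[n] y ∈ A0}

lemma A1_pos : 0 < volume A1 := by
  have h1 : Ergodic dbl := AddCircle.ergodic_nsmul (T := 2 * π) (n := 2) (by norm_num)
  have h2 := h1.toMeasurePreserving.conservative.ae_mem_imp_frequently_image_mem
    A0_open.measurableSet.nullMeasurableSet
  have h3 : volume A0 ≤ volume A1 := by
    apply measure_mono_ae
    filter_upwards [h2] with y hy
    exact hy
  exact A0_pos.trans_le h3

lemma A1_scales {y : AddCircle (2 * π)} (hy : y ∈ A1) {ρ : ℝ} (hρ : 0 < ρ) :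
    ∃ κ : ℂ, κ ≠ 0 ∧ ‖κ‖ < ρ ∧ ∀ k ∈ Sk, Phi (cp y) + κ * k ∉ Om := by
  set s := cp y with hs
  have hsn : ‖s‖ = 1 := cp_norm y
  have hPle : ‖Phi s‖ ≤ 4 / 3 := by
    unfold Phi
    have h1 := G_norm_ge hsn.le
    rw [norm_div, hsn, div_le_iff₀ (by linarith)]
    linarith
  have hPne : Phi s ≠ 0 := Phi_ne hsn.le (ne_of_norm hsn)
  have ht : Tendsto (fun n : ℕ => ((2 / 3 : ℝ)) ^ n) atTop (𝓝 0) :=
    tendsto_pow_atTop_nhds_zero_of_lt_one (by norm_num) (by norm_num)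
  have he : ∀ᶠ n : ℕ in atTop, (2 / 3 : ℝ) ^ n < min (1 / 200) (ρ / 2) :=
    ht.eventually_lt_const (by positivity)
  obtain ⟨n, hn1, hn2⟩ := (Filter.Frequently.and_eventually hy he).exists
  set N := n + 10 with hN
  have hzt : ∀ j < 11, ‖zt s (n + j) - 3 / 4‖ ≤ 1 / 10 ^ 11 := by
    intro j hj
    have := hn1 j (Finset.mem_range.2 hj)
    rw [cp_dbl, ← pow_mul, ← pow_add] at this
    exact this.le
  have hA : ‖Ac s N - 4 / 3‖ ≤ 1 / 10 := by
    have := Ac_near hsn n (ε := 1 / 10 ^ 11) (by positivity) 10 (fun j hj => hzt j (by omega))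
    refine this.trans ?_
    norm_num
  have hz : ‖zt s N - 3 / 4‖ ≤ 1 / 10 ^ 11 := hzt 10 (by norm_num)
  have hlamge := lam_norm hsn N
  have hlam0 : 0 < ‖lam s N‖ := norm_pos_iff.2 (lam_ne hsn N)
  have h23 : (‖lam s N‖)⁻¹ ≤ (2 / 3 : ℝ) ^ n := by
    have e1 : (2 / 3 : ℝ) ^ n = ((3 / 2 : ℝ) ^ n)⁻¹ := by
      rw [← inv_pow]; norm_num
    rw [e1]
    apply inv_anti₀ (by positivity)
    refine le_trans ?_ hlamge
    exact pow_le_pow_right₀ (by norm_num) (by omega)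
  have hm1 := hn2.trans_le (min_le_left _ _)
  have hm2 := hn2.trans_le (min_le_right _ _)
  have hinv0 : 0 ≤ (‖lam s N‖)⁻¹ := by positivity
  have hτ : ‖Phi s / lam s N‖ ≤ 1 / 100 := by
    rw [norm_div, div_eq_mul_inv]
    nlinarith [norm_nonneg (Phi s)]
  refine ⟨-(Phi s ^ 2 / lam s N), ?_, ?_, ?_⟩
  · exact neg_ne_zero.2 (div_ne_zero (pow_ne_zero _ hPne) (lam_ne hsn N))
  · rw [norm_neg, norm_div, norm_pow, div_eq_mul_inv]
    have h5 : ‖Phi s‖ ^ 2 ≤ (4 / 3) ^ 2 := by gcongr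
    have h6 : ‖Phi s‖ ^ 2 * (‖lam s N‖)⁻¹ ≤ (4 / 3) ^ 2 * (‖lam s N‖)⁻¹ := by gcongr
    nlinarith
  · intro k hk
    exact out hsn hA hz hτ hk.1 hk.2.1 hk.2.2

lemma Phi_zero : Phi 0 = 0 := by simp [Phi]

lemma zero_mem_Om : (0 : ℂ) ∈ Om := ⟨0, by simp, Phi_zero⟩

lemma Om_sub {z : ℂ} (hz : z ∈ Om) : ‖z‖ < 4 / 3 := by
  obtain ⟨s, hs, rfl⟩ := hz
  exact Phi_lt (by simpa using hs)

lemma nonpolar : ∃ u : ℂ → ENNReal, SH u Om ∧ ∃ z ∈ Om, ∃ w ∈ Om, u z < u w ∧ u w < ⊤ := by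
  refine ⟨fun z => ENNReal.ofReal (2 + z.re), ⟨?_, ?_⟩, ?_⟩
  · apply Continuous.lowerSemicontinuous _ |>.lowerSemicontinuousOn
    exact ENNReal.continuous_ofReal.comp (by fun_prop)
  · intro a r hr hsub
    have hmem : ∀ t : ℝ, a + (r:ℂ) * exp (t * I) ∈ Om := by
      intro t
      apply hsub
      simp [abs_of_pos hr]
    have hpos : ∀ z ∈ Om, 0 ≤ 2 + z.re := by
      intro z hz
      have h1 := Om_sub hz
      have h2 := abs_le.1 (Complex.abs_re_le_norm z)
      linarith [h2.1]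
    have hc : Continuous (fun t : ℝ => 2 + (a + (r:ℂ) * exp (t * I)).re) := by fun_prop
    rw [← ENNReal.ofReal_mul (by positivity)]
    rw [← ofReal_integral_eq_lintegral_ofReal]
    · apply ENNReal.ofReal_le_ofReal
      rw [← intervalIntegral.integral_of_le (by positivity)]
      have hre : ∀ t : ℝ, 2 + (a + (r:ℂ) * exp (t * I)).re = (2 + a.re) + r * Real.cos t := by
        intro t
        rw [Complex.exp_mul_I]
        simp [← Complex.ofReal_cos, ← Complex.ofReal_sin]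
        ring
      simp only [hre]
      rw [intervalIntegral.integral_add (by simp) (by
        apply Continuous.intervalIntegrable; fun_prop)]
      rw [intervalIntegral.integral_const_mul, integral_cos]
      simp
      linarith
    · exact (hc.integrableOn_Icc).mono_set Ioc_subset_Icc_self
    · exact Eventually.of_forall (fun t => hpos _ (hmem t))
  · have h1 := Metric.isOpen_iff.1 Om_open 0 zero_mem_Om
    obtain ⟨ε, hε, h2⟩ := h1
    refine ⟨0, zero_mem_Om, ((ε / 2 : ℝ) : ℂ), h2 ?_, ?_, ENNReal.ofReal_lt_top⟩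
    · rw [mem_ball_zero_iff, Complex.norm_real, Real.norm_of_nonneg (by positivity)]
      linarith
    · rw [ENNReal.ofReal_lt_ofReal_iff]
      · simp only [zero_re, ofReal_re]; linarith
      · simp only [ofReal_re]; positivity

theorem main :
    ¬ (∀ Ω : Set ℂ, IsOpen Ω → IsConnected Ω →
    (∃ u : ℂ → ENNReal,
      (LowerSemicontinuousOn u Ω ∧ ∀ a : ℂ, ∀ r : ℝ, 0 < r → Metric.closedBall a r ⊆ Ω →
        ∫⁻ t in Set.Ioc (0:ℝ) (2 * Real.pi), u (a + (r:ℂ) * Complex.exp ((t:ℂ) * Complex.I))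
          ≤ ENNReal.ofReal (2 * Real.pi) * u a) ∧
      ∃ z ∈ Ω, ∃ w ∈ Ω, u z < u w ∧ u w < ⊤) →
    ∃ E ⊆ frontier Ω,
      (∀ z ∈ Ω, ∀ ε : ENNReal, 0 < ε → ∃ u : ℂ → ENNReal,
        (LowerSemicontinuousOn u Ω ∧ ∀ a : ℂ, ∀ r : ℝ, 0 < r → Metric.closedBall a r ⊆ Ω →
          ∫⁻ t in Set.Ioc (0:ℝ) (2 * Real.pi), u (a + (r:ℂ) * Complex.exp ((t:ℂ) * Complex.I))
            ≤ ENNReal.ofReal (2 * Real.pi) * u a) ∧
        (∀ ζ ∈ frontier Ω \ E, 1 ≤ Filter.liminf u (nhdsWithin ζ Ω)) ∧ u z < ε) ∧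
      ∀ z ∈ E, ∃ a b : ℝ → ℝ, Measurable (fun r => b r - a r) ∧
        (∀ r : ℝ, 0 < r → a r ≤ b r ∧ b r - a r ≤ 2 * Real.pi ∧
          ∀ t ∈ Set.Ioo (a r) (b r), z + (r:ℂ) * Complex.exp ((t:ℂ) * Complex.I) ∈ Ω) ∧
        Filter.Tendsto (fun R : ℝ => (Real.pi * R ^ 2)⁻¹ * ∫ r in (0:ℝ)..R, (b r - a r) * r)
          (nhdsWithin 0 (Set.Ioi 0)) (nhds (1/2))) := by
  intro h
  obtain ⟨E, hE, hfull, harc⟩ := h Om Om_open Om_conn nonpolar
  have hbad : ∀ y ∈ A1, Phi (cp y) ∈ frontier Om \ E := by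
    intro y hy
    refine ⟨Phi_frontier (cp_norm y), fun hyE => ?_⟩
    obtain ⟨a, b, hm, hab, hlim⟩ := harc _ hyE
    exact no_limit Om_open hm hab hlim (fun ρ hρ => A1_scales hy hρ)
  have hpos : 0 < (volume A1).toReal := ENNReal.toReal_pos A1_pos.ne' (measure_lt_top _ _).ne
  have hpi := Real.pi_pos
  obtain ⟨u, hu, hlim, hlt⟩ := hfull (Phi 0) (by rw [Phi_zero]; exact zero_mem_Om)
    (ENNReal.ofReal ((volume A1).toReal / (16 * π))) (by
      rw [ENNReal.ofReal_pos]; positivity)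
  have := lower (u := u) hu (A := A1) (fun y hy => hlim _ (hbad y hy)) A1_pos
  exact absurd hlt (not_lt.2 this)

end Pool.Agent.Helper694.Ang
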